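import Mathlib

/-!
# Project MK (MP_460089_an): unit balls of superreflexive spaces and Markov operators.  Definitions

Finite probability spaces are `Fin n` with weights `w`; operators are real matrices, which act on
functions with values in a real vector space by `act`.
-/

universe u

namespace Pool.Agent.Helper82.MK

open Finset

/-- The action of a real matrix on functions with values in a real vector space. -/
noncomputable def act {n : ℕ} {E : Type*} [AddCommGroup E] [Module ℝ E]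
    (A : Matrix (Fin n) (Fin n) ℝ) (f : Fin n → E) : Fin n → E := fun i => ∑ j, A i j • f j

/-- Probability weights (all positive, of total mass one). -/
def Wt {n : ℕ} (w : Fin n → ℝ) : Prop := (∀ i, 0 < w i) ∧ ∑ i, w i = 1

/-- `A` is a Markov matrix which is symmetric with respect to the weights `w`. -/
structure Mk {n : ℕ} (w : Fin n → ℝ) (A : Matrix (Fin n) (Fin n) ℝ) : Prop where
  nonneg : ∀ i j, 0 ≤ A i j
  row : ∀ i, ∑ j, A i j = 1
  sym : ∀ i j, w i * A i j = w j * A j i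

/-- `N` is a uniformly convex norm on `X`, equivalent to the given one. -/
structure UCN (X : Type u) [NormedAddCommGroup X] [NormedSpace ℝ X] (N : X → ℝ) (c C : ℝ) :
    Prop where
  c_pos : 0 < c
  C_pos : 0 < C
  lower : ∀ x : X, c * ‖x‖ ≤ N x
  upper : ∀ x : X, N x ≤ C * ‖x‖
  add : ∀ x y : X, N (x + y) ≤ N x + N y
  smul : ∀ (a : ℝ) (x : X), N (a • x) = |a| * N x
  uc : ∀ ε : ℝ, 0 < ε → ∃ δ : ℝ, 0 < δ ∧ ∀ x y : X,
    N x ≤ 1 → N y ≤ 1 → ε ≤ N (x - y) → N (x + y) ≤ 2 - 2 * δ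

/-- Uniformly curved spaces (Pisier): an operator which is contractive on `L_1` and `L_∞` and has
small norm on `L_2` has small norm on `L_2(X)`. -/
def UCurved (X : Type u) [NormedAddCommGroup X] [NormedSpace ℝ X] : Prop :=
  ∀ η : ℝ, 0 < η → ∃ ε : ℝ, 0 < ε ∧
    ∀ (n : ℕ) (w : Fin n → ℝ) (T : Matrix (Fin n) (Fin n) ℝ), (∀ i, 0 < w i) →
      (∀ i, ∑ j, |T i j| ≤ 1) → (∀ j, ∑ i, w i * |T i j| ≤ w j) →
      (∀ g : Fin n → ℝ, ∑ i, w i * (act T g i) ^ 2 ≤ ε ^ 2 * ∑ i, w i * (g i) ^ 2) →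
      ∀ f : Fin n → X, ∑ i, w i * ‖act T f i‖ ^ 2 ≤ η ^ 2 * ∑ i, w i * ‖f i‖ ^ 2

/-- The Markov criterion: if `M`, `P` are symmetric Markov operators on a finite probability space
and `(1 - M) P ^ N` is small on `L_2`, then it is small from `L_∞(X)` to `L_1(X)`; here `N` may
depend on the required smallness. -/
def MCurved (X : Type u) [NormedAddCommGroup X] [NormedSpace ℝ X] : Prop :=
  ∀ η : ℝ, 0 < η → ∃ N : ℕ, 0 < N ∧ ∃ δ : ℝ, 0 < δ ∧
    ∀ (n : ℕ) (w : Fin n → ℝ) (M P : Matrix (Fin n) (Fin n) ℝ), Wt w → Mk w M → Mk w P →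
      (∀ g : Fin n → ℝ,
        ∑ i, w i * (act ((1 - M) * P ^ N) g i) ^ 2 ≤ δ ^ 2 * ∑ i, w i * (g i) ^ 2) →
      ∀ f : Fin n → X, (∀ i, ‖f i‖ ≤ 1) → ∑ i, w i * ‖act ((1 - M) * P ^ N) f i‖ ≤ η

/-- The weighted Laplacian of the symmetric kernel `k`: `(L f)_i = (1 / w_i) ∑_j k_ij (f_i - f_j)`. -/
noncomputable def Lap {n : ℕ} (w : Fin n → ℝ) (k : Fin n → Fin n → ℝ) :
    Matrix (Fin n) (Fin n) ℝ :=
  Matrix.of fun i j => ((if i = j then ∑ l, k i l else 0) - k i j) / w i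

/-- The energy of a function for the kernel `k`. -/
noncomputable def En {n : ℕ} {E : Type*} [NormedAddCommGroup E] (k : Fin n → Fin n → ℝ)
    (g : Fin n → E) : ℝ := ∑ i, ∑ j, k i j * ‖g i - g j‖ ^ 2

end Pool.Agent.Helper82.MK
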