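import Mathlib

/-!
# Block MK-EMB: moduli of a uniform embedding of a unit ball (Mathlib only)

PROOF. `bounded_of_emb`: `F` is uniformly continuous (`IsUniformEmbedding.uniformContinuous`), so there is `t > 0` with
`dist x y < t → dist (F x) (F y) < 1`; take `m` with `1 / m < t` and the chain `(i / m) • x`, `0 ≤ i ≤ m`, of points of the ball:
`‖F x - F 0‖ ≤ m`. `emb_upper`: `t` for `√η`; if `‖x - y‖ < t` then `‖F x - F y‖² ≤ η`, otherwise
`‖F x - F y‖² ≤ 4 D² ≤ (4 D² / t) ‖x - y‖`. `emb_lower`: uniform continuity of the inverse gives `t > 0` with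
`dist (F x) (F y) < t → dist x y < η`; otherwise `‖x - y‖ ≤ 2 ≤ (2 / t²) ‖F x - F y‖²`.
-/

universe u v

namespace Pool.Agent.Helper82.MK

open Finset

variable {X : Type u} [NormedAddCommGroup X] [NormedSpace ℝ X] {H : Type v}
  [NormedAddCommGroup H]

private lemma chain68 (F : Metric.closedBall (0 : X) 1 → H) {t : ℝ}
    (h : ∀ ⦃a b : Metric.closedBall (0 : X) 1⦄, dist a b < t → dist (F a) (F b) < 1) {M : ℕ}
    (hM : 0 < M) (hMt : 1 / (M : ℝ) < t) (x z : Metric.closedBall (0 : X) 1) (hz : (z : X) = 0) :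
    ∀ i : ℕ, i ≤ M → ∀ y : Metric.closedBall (0 : X) 1, (y : X) = ((i : ℝ) / M) • (x : X) →
      ‖F y - F z‖ ≤ i := by
  have hx : ‖(x : X)‖ ≤ 1 := mem_closedBall_zero_iff.1 x.2
  have hM' : (0 : ℝ) < M := by exact_mod_cast hM
  intro i
  induction i with
  | zero =>
    intro _ y hy
    have : y = z := by
      apply Subtype.ext
      rw [hy, hz]
      simp
    rw [this, sub_self, norm_zero]
    exact Nat.cast_nonneg _
  | succ i ih =>
    intro hi y hy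
    have hmem : ((i : ℝ) / M) • (x : X) ∈ Metric.closedBall (0 : X) 1 := by
      rw [mem_closedBall_zero_iff, norm_smul, Real.norm_of_nonneg (by positivity)]
      have h1 : (i : ℝ) / M ≤ 1 := by
        rw [div_le_one hM']
        exact_mod_cast (Nat.le_succ i).trans hi
      exact mul_le_one₀ h1 (norm_nonneg _) hx
    have h2 := ih ((Nat.le_succ i).trans hi) ⟨_, hmem⟩ rfl
    have h3 : dist y ⟨_, hmem⟩ < t := by
      rw [Subtype.dist_eq, dist_eq_norm, hy, ← sub_smul]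
      have e : (((i + 1 : ℕ) : ℝ) / M - (i : ℝ) / M) = 1 / M := by
        push_cast
        ring
      change ‖(((i + 1 : ℕ) : ℝ) / M - (i : ℝ) / M) • (x : X)‖ < t
      rw [e, norm_smul, Real.norm_of_nonneg (by positivity)]
      calc 1 / (M : ℝ) * ‖(x : X)‖ ≤ 1 / M * 1 := mul_le_mul_of_nonneg_left hx (by positivity)
        _ < t := by rwa [mul_one]
    have h4 := h h3
    rw [dist_eq_norm] at h4
    calc ‖F y - F z‖ = ‖(F y - F ⟨_, hmem⟩) + (F ⟨_, hmem⟩ - F z)‖ := by congr 1; abel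
      _ ≤ ‖F y - F ⟨_, hmem⟩‖ + ‖F ⟨_, hmem⟩ - F z‖ := norm_add_le _ _
      _ ≤ 1 + i := add_le_add h4.le h2
      _ = ((i + 1 : ℕ) : ℝ) := by push_cast; ring

theorem bounded_of_emb (F : Metric.closedBall (0 : X) 1 → H) (hF : UniformContinuous F) :
    ∃ D : ℝ, 0 < D ∧ ∀ x y, ‖F x - F y‖ ≤ D := by
  obtain ⟨t, ht, h⟩ := Metric.uniformContinuous_iff.1 hF 1 one_pos
  obtain ⟨m, hm⟩ := exists_nat_one_div_lt ht
  let z : Metric.closedBall (0 : X) 1 := ⟨0, by simp⟩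
  have key : ∀ x, ‖F x - F z‖ ≤ ((m + 1 : ℕ) : ℝ) := by
    intro x
    refine chain68 F (fun a b hab => h hab) (M := m + 1) (Nat.succ_pos m) (by push_cast; exact hm)
      x z rfl (m + 1) le_rfl x ?_
    rw [div_self (by positivity), one_smul]
  refine ⟨2 * ((m + 1 : ℕ) : ℝ), by positivity, fun x y => ?_⟩
  calc ‖F x - F y‖ = ‖(F x - F z) - (F y - F z)‖ := by congr 1; abel
    _ ≤ ‖F x - F z‖ + ‖F y - F z‖ := norm_sub_le _ _
    _ ≤ 2 * ((m + 1 : ℕ) : ℝ) := by linarith [key x, key y]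

theorem emb_upper (F : Metric.closedBall (0 : X) 1 → H) (hF : UniformContinuous F) (η : ℝ)
    (hη : 0 < η) : ∃ A : ℝ, 0 < A ∧ ∀ x y : Metric.closedBall (0 : X) 1,
      ‖F x - F y‖ ^ 2 ≤ η + A * ‖(x : X) - (y : X)‖ := by
  obtain ⟨D, hD, hb⟩ := bounded_of_emb F hF
  obtain ⟨t, ht, h⟩ := Metric.uniformContinuous_iff.1 hF (Real.sqrt η) (Real.sqrt_pos.2 hη)
  refine ⟨D ^ 2 / t, by positivity, fun x y => ?_⟩
  rcases lt_or_ge ‖(x : X) - (y : X)‖ t with hlt | hge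
  · have h1 : dist (F x) (F y) < Real.sqrt η := by
      apply h
      rwa [Subtype.dist_eq, dist_eq_norm]
    rw [dist_eq_norm] at h1
    have h2 : ‖F x - F y‖ ^ 2 ≤ η := by
      calc ‖F x - F y‖ ^ 2 ≤ Real.sqrt η ^ 2 := pow_le_pow_left₀ (norm_nonneg _) h1.le 2
        _ = η := Real.sq_sqrt hη.le
    have h3 : 0 ≤ D ^ 2 / t * ‖(x : X) - (y : X)‖ := by positivity
    linarith
  · have h1 : ‖F x - F y‖ ^ 2 ≤ D ^ 2 := pow_le_pow_left₀ (norm_nonneg _) (hb x y) 2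
    have h2 : D ^ 2 ≤ D ^ 2 / t * ‖(x : X) - (y : X)‖ := by
      calc D ^ 2 = D ^ 2 / t * t := by field_simp
        _ ≤ _ := mul_le_mul_of_nonneg_left hge (by positivity)
    linarith

theorem emb_lower (F : Metric.closedBall (0 : X) 1 → H) (hF : IsUniformEmbedding F) (η : ℝ)
    (hη : 0 < η) : ∃ A : ℝ, 0 < A ∧ ∀ x y : Metric.closedBall (0 : X) 1,
      ‖(x : X) - (y : X)‖ ≤ η + A * ‖F x - F y‖ ^ 2 := by
  obtain ⟨t, ht, h⟩ := (Metric.isUniformEmbedding_iff'.1 hF).2 η hη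
  refine ⟨2 / t ^ 2, by positivity, fun x y => ?_⟩
  have hx : ‖(x : X)‖ ≤ 1 := mem_closedBall_zero_iff.1 x.2
  have hy : ‖(y : X)‖ ≤ 1 := mem_closedBall_zero_iff.1 y.2
  rcases lt_or_ge ‖F x - F y‖ t with hlt | hge
  · have h1 : dist x y < η := by
      apply h
      rwa [dist_eq_norm]
    rw [Subtype.dist_eq, dist_eq_norm] at h1
    have h3 : 0 ≤ 2 / t ^ 2 * ‖F x - F y‖ ^ 2 := by positivity
    linarith
  · have h1 : ‖(x : X) - (y : X)‖ ≤ 2 := (norm_sub_le _ _).trans (by linarith)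
    have h2 : 2 ≤ 2 / t ^ 2 * ‖F x - F y‖ ^ 2 := by
      calc (2 : ℝ) = 2 / t ^ 2 * t ^ 2 := by field_simp
        _ ≤ _ := mul_le_mul_of_nonneg_left (pow_le_pow_left₀ ht.le hge 2) (by positivity)
    linarith

/-- The converse direction: moduli give a uniform embedding. -/
theorem emb_of_moduli (F : Metric.closedBall (0 : X) 1 → H)
    (h1 : ∀ x y, ‖F x - F y‖ ^ 2 ≤ 2 * ‖(x : X) - (y : X)‖)
    (h2 : ∀ r : ℕ, ∃ θ : ℝ, 0 < θ ∧ ∀ x y : Metric.closedBall (0 : X) 1, 1 / ((r : ℝ) + 1) ≤ ‖(x : X) - (y : X)‖ →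
      θ ≤ ‖F x - F y‖ ^ 2) : IsUniformEmbedding F := by
  rw [Metric.isUniformEmbedding_iff']
  constructor
  · intro ε hε
    refine ⟨ε ^ 2 / 2, by positivity, fun {a b} hab => ?_⟩
    rw [Subtype.dist_eq, dist_eq_norm] at hab
    rw [dist_eq_norm]
    have h3 : ‖F a - F b‖ ^ 2 < ε ^ 2 := by linarith [h1 a b]
    exact lt_of_pow_lt_pow_left₀ 2 hε.le h3
  · intro δ hδ
    obtain ⟨r, hr⟩ := exists_nat_one_div_lt hδ
    obtain ⟨θ, hθ, h3⟩ := h2 r
    refine ⟨Real.sqrt θ, Real.sqrt_pos.2 hθ, fun {a b} hab => ?_⟩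
    rw [dist_eq_norm] at hab
    rw [Subtype.dist_eq, dist_eq_norm]
    by_contra hcon
    have h4 := h3 a b (hr.le.trans (not_lt.1 hcon))
    have h5 : ‖F a - F b‖ ^ 2 < Real.sqrt θ ^ 2 := pow_lt_pow_left₀ hab (norm_nonneg _) two_ne_zero
    rw [Real.sq_sqrt hθ.le] at h5
    linarith

end Pool.Agent.Helper82.MK
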