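import Pool.Agent.Helper82.MK.Mat

/-!
# Block MK-HIL: scalar `L_2` bounds hold for functions with values in a Hilbert space

PROOF. The symmetric matrix `S i j = b w_i δ_ij - ∑_l w_l A l i A l j` is positive semidefinite
(`∑_ij S i j g i g j = b ∑ w g² - ∑_l w_l (act A g l)² ≥ 0`), so `S = Bᵀ B` for a real matrix `B`
(`Matrix.posSemidef_iff_eq_conjTranspose_mul_self` or its present name) and for `h : Fin n → H`
`b ∑ w ‖h‖² - ∑ w ‖act A h‖² = ∑_ij S i j ⟪h i, h j⟫ = ∑_l ‖∑_i B l i • h i‖² ≥ 0`.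
(Other proof: an orthonormal basis of the finite-dimensional span of the `h i` and coordinates.)
-/

namespace Pool.Agent.Helper82.MK

open Finset

private theorem hilbert_bound_fin55 {n : ℕ} {H : Type*} [NormedAddCommGroup H]
    [InnerProductSpace ℝ H] [FiniteDimensional ℝ H]
    (w : Fin n → ℝ) (A : Matrix (Fin n) (Fin n) ℝ) (b : ℝ)
    (hA : ∀ g : Fin n → ℝ, ∑ i, w i * (act A g i) ^ 2 ≤ b * ∑ i, w i * (g i) ^ 2)
    (h : Fin n → H) : ∑ i, w i * ‖act A h i‖ ^ 2 ≤ b * ∑ i, w i * ‖h i‖ ^ 2 := by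
  let e := stdOrthonormalBasis ℝ H
  have hn : ∀ x : H, ‖x‖ ^ 2 = ∑ k, (innerSL ℝ (e k) x) ^ 2 := by
    intro x
    rw [← e.sum_sq_norm_inner_right x]
    refine Finset.sum_congr rfl fun k _ => ?_
    rw [Real.norm_eq_abs, sq_abs]
    rfl
  have h1 : ∀ x : Fin n → H, ∑ i, w i * ‖x i‖ ^ 2 =
      ∑ k, ∑ i, w i * (innerSL ℝ (e k) (x i)) ^ 2 := by
    intro x
    rw [Finset.sum_comm]
    refine Finset.sum_congr rfl fun i _ => ?_
    rw [hn, Finset.mul_sum]
  rw [h1, h1, Finset.mul_sum]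
  refine Finset.sum_le_sum fun k _ => ?_
  have h2 := hA fun i => innerSL ℝ (e k) (h i)
  refine le_trans (le_of_eq ?_) h2
  refine Finset.sum_congr rfl fun i _ => ?_
  congr 2
  exact act_linear (innerSL ℝ (e k)).toLinearMap A h i

theorem hilbert_bound {n : ℕ} {H : Type*} [NormedAddCommGroup H] [InnerProductSpace ℝ H]
    (w : Fin n → ℝ) (A : Matrix (Fin n) (Fin n) ℝ) (b : ℝ)
    (hA : ∀ g : Fin n → ℝ, ∑ i, w i * (act A g i) ^ 2 ≤ b * ∑ i, w i * (g i) ^ 2)
    (h : Fin n → H) : ∑ i, w i * ‖act A h i‖ ^ 2 ≤ b * ∑ i, w i * ‖h i‖ ^ 2 := by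
  let V : Submodule ℝ H := Submodule.span ℝ (Set.range h)
  haveI : FiniteDimensional ℝ V := FiniteDimensional.span_of_finite ℝ (Set.finite_range h)
  let h' : Fin n → V := fun i => ⟨h i, Submodule.subset_span ⟨i, rfl⟩⟩
  have h1 := hilbert_bound_fin55 w A b hA h'
  have h2 : ∀ i, ‖act A h i‖ = ‖act A h' i‖ := by
    intro i
    have h3 := act_linear V.subtype A h' i
    rw [← Submodule.norm_coe]
    exact congrArg norm h3.symm
  simp only [h2]
  exact h1

end Pool.Agent.Helper82.MK
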