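import Pool.Agent.Helper82.MK.Mat

/-!
# Block MK-NEAR: consequences of almost invariance

PROOF. `Q` symmetric Markov, `v = act Q g`, `e = ∑_xy w_x Q x y ‖g y - v x‖`.
`near_one`: `act (Q * Q) g x = ∑_y Q x y • v y`, so `∑_x w_x ‖g x - act (Q * Q) g x‖ ≤ ∑_xy w_x Q x y ‖g x - v y‖`, which is `e`
after exchanging `x` and `y` (`Mk.sym`).
`near_two`: `w_y (Q * Q) y z = ∑_x w_y Q y x Q x z = ∑_x w_x Q x y Q x z`; triangle inequality
`‖g y - g z‖ ≤ ‖g y - v x‖ + ‖g z - v x‖` and `∑_z Q x z = 1`.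
-/

namespace Pool.Agent.Helper82.MK

open Finset

theorem near_one {n : ℕ} {E : Type*} [NormedAddCommGroup E] [NormedSpace ℝ E] {w : Fin n → ℝ}
    (hw : ∀ i, 0 < w i) {Q : Matrix (Fin n) (Fin n) ℝ} (hQ : Mk w Q) (g : Fin n → E) :
    ∑ x, w x * ‖g x - act (Q * Q) g x‖ ≤ ∑ x, ∑ y, w x * Q x y * ‖g y - act Q g x‖ := by
  have h1 : ∀ x, w x * ‖g x - act (Q * Q) g x‖ ≤
      ∑ y, w y * Q y x * ‖g x - act Q g y‖ := by
    intro x
    have e : g x - act (Q * Q) g x = ∑ y, Q x y • (g x - act Q g y) := by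
      rw [act_mul, act_apply Q (act Q g) x]
      simp only [smul_sub, Finset.sum_sub_distrib, ← Finset.sum_smul, hQ.row, one_smul]
    rw [e]
    calc w x * ‖∑ y, Q x y • (g x - act Q g y)‖ ≤ w x * ∑ y, Q x y * ‖g x - act Q g y‖ := by
          refine mul_le_mul_of_nonneg_left ?_ (hw x).le
          refine (norm_sum_le _ _).trans (le_of_eq ?_)
          exact Finset.sum_congr rfl fun y _ => by
            rw [norm_smul, Real.norm_eq_abs, abs_of_nonneg (hQ.nonneg x y)]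
      _ = ∑ y, w y * Q y x * ‖g x - act Q g y‖ := by
          rw [Finset.mul_sum]
          exact Finset.sum_congr rfl fun y _ => by rw [← mul_assoc, hQ.sym x y]
  refine (Finset.sum_le_sum fun x _ => h1 x).trans (le_of_eq ?_)
  exact Finset.sum_comm

theorem near_two {n : ℕ} {E : Type*} [NormedAddCommGroup E] [NormedSpace ℝ E] {w : Fin n → ℝ}
    (hw : ∀ i, 0 < w i) {Q : Matrix (Fin n) (Fin n) ℝ} (hQ : Mk w Q) (g : Fin n → E) :
    ∑ y, ∑ z, w y * (Q * Q) y z * ‖g y - g z‖ ≤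
      2 * ∑ x, ∑ y, w x * Q x y * ‖g y - act Q g x‖ := by
  have h1 : ∑ y, ∑ z, w y * (Q * Q) y z * ‖g y - g z‖ =
      ∑ x, ∑ y, ∑ z, w x * Q x y * Q x z * ‖g y - g z‖ := by
    have h2 : ∀ y z, w y * (Q * Q) y z * ‖g y - g z‖ =
        ∑ x, w x * Q x y * Q x z * ‖g y - g z‖ := by
      intro y z
      rw [Matrix.mul_apply, Finset.mul_sum, Finset.sum_mul]
      refine Finset.sum_congr rfl fun x _ => ?_
      rw [← mul_assoc, hQ.sym y x]
    simp only [h2]
    calc ∑ y, ∑ z, ∑ x, w x * Q x y * Q x z * ‖g y - g z‖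
        = ∑ y, ∑ x, ∑ z, w x * Q x y * Q x z * ‖g y - g z‖ :=
          Finset.sum_congr rfl fun y _ => Finset.sum_comm
      _ = _ := Finset.sum_comm
  have h3 : ∀ x, ∑ y, ∑ z, w x * Q x y * Q x z * ‖g y - g z‖ ≤
      2 * ∑ y, w x * Q x y * ‖g y - act Q g x‖ := by
    intro x
    have h4 : ∀ y z, w x * Q x y * Q x z * ‖g y - g z‖ ≤
        Q x z * (w x * Q x y * ‖g y - act Q g x‖) +
          Q x y * (w x * Q x z * ‖g z - act Q g x‖) := by
      intro y z
      have h5 : ‖g y - g z‖ ≤ ‖g y - act Q g x‖ + ‖g z - act Q g x‖ := by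
        have h6 := norm_sub_le (g y - act Q g x) (g z - act Q g x)
        rwa [sub_sub_sub_cancel_right] at h6
      have h7 : 0 ≤ w x * Q x y * Q x z :=
        mul_nonneg (mul_nonneg (hw x).le (hQ.nonneg x y)) (hQ.nonneg x z)
      refine (mul_le_mul_of_nonneg_left h5 h7).trans (le_of_eq ?_)
      ring
    refine (Finset.sum_le_sum fun y _ => Finset.sum_le_sum fun z _ => h4 y z).trans
      (le_of_eq ?_)
    simp only [Finset.sum_add_distrib, ← Finset.sum_mul, ← Finset.mul_sum, hQ.row, one_mul]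
    ring
  rw [h1, Finset.mul_sum]
  exact Finset.sum_le_sum fun x _ => h3 x

end Pool.Agent.Helper82.MK
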