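import Pool.Agent.Helper82.MK.Mat

/-!
# Block MK-ROOT: smallness of `(1 - M) P ^ (2 m)` implies smallness of `(1 - M) P ^ m`

Notation: `⟨f, g⟩ = ∑ w f g`, `‖g‖² = ∑ w g²`; `B = (1 - M) Q`, `B* = Q (1 - M)` (`M`, `Q` are self-adjoint, `Mk.adj` with `H = ℝ`).
PROOF of `root_step`. `hb`: `‖(1 - M) Q² g‖² ≤ b² ‖g‖²`. For all `u`: `‖B* u‖² = ⟨(1 - M) Q² (1 - M) u, u⟩ ≤ b ‖(1 - M) u‖ ‖u‖ ≤ 2 b ‖u‖²`
(`‖(1 - M) u‖ ≤ 2 ‖u‖`, `Mk.norm_l2`; Cauchy-Schwarz for the weighted sum). `‖B g‖² = ⟨g, B* B g⟩ ≤ ‖g‖ ‖B* (B g)‖ ≤ ‖g‖ (2 b)^(1/2) ‖B g‖`, so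
`‖B g‖² ≤ 2 b ‖g‖²`.
`root_all`: induction on `K - j`: with the bound `b_K = δ` for `P ^ (2 ^ K)` the bound for `P ^ (2 ^ j)` is `b_j = √(2 b_(j+1))`; for every
`β > 0` and `K` there is `δ > 0` such that all `b_j ≤ β` (`b_j ≤ max ...`; choose `δ` by induction on `K`: if `b_(j+1) ≤ β' ≤ β ^ 2 / 2` then
`b_j ≤ β`, so it suffices to start with a `δ` for `K - 1` and `min β (β ^ 2 / 2)`).
-/

namespace Pool.Agent.Helper82.MK

open Finset

private theorem le_of_sq_le_sq1 {x y : ℝ} (h : x ^ 2 ≤ y ^ 2) (hy : 0 ≤ y) : x ≤ y := by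
  by_contra hc
  rw [not_le] at hc
  nlinarith

private theorem adj1 {n : ℕ} {w : Fin n → ℝ} {A : Matrix (Fin n) (Fin n) ℝ} (hA : Mk w A)
    (f g : Fin n → ℝ) :
    ∑ i, w i * (act A f i * g i) = ∑ i, w i * (f i * act A g i) := by
  simp only [act_apply, smul_eq_mul, Finset.sum_mul, Finset.mul_sum]
  rw [Finset.sum_comm]
  refine Finset.sum_congr rfl fun j _ => Finset.sum_congr rfl fun i _ => ?_
  have h := hA.sym i j
  calc w i * (A i j * f j * g i) = (w i * A i j) * (f j * g i) := by ring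
    _ = (w j * A j i) * (f j * g i) := by rw [h]
    _ = w j * (f j * (A j i * g i)) := by ring

private theorem adjT1 {n : ℕ} {w : Fin n → ℝ} {A : Matrix (Fin n) (Fin n) ℝ} (hA : Mk w A)
    (f g : Fin n → ℝ) :
    ∑ i, w i * (act (1 - A) f i * g i) = ∑ i, w i * (f i * act (1 - A) g i) := by
  rw [act_one_sub, act_one_sub]
  simp only [Pi.sub_apply, sub_mul, mul_sub, Finset.sum_sub_distrib]
  rw [adj1 hA f g]

private theorem cs1 {n : ℕ} {w : Fin n → ℝ} (hw : ∀ i, 0 < w i) (u v : Fin n → ℝ) :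
    (∑ i, w i * (u i * v i)) ^ 2 ≤ (∑ i, w i * (u i) ^ 2) * ∑ i, w i * (v i) ^ 2 := by
  have h := Finset.sum_mul_sq_le_sq_mul_sq Finset.univ (fun i => √(w i) * u i)
    (fun i => √(w i) * v i)
  have e : ∀ i, √(w i) * √(w i) = w i := fun i => Real.mul_self_sqrt (hw i).le
  have e1 : ∀ i, √(w i) * u i * (√(w i) * v i) = w i * (u i * v i) := fun i => by
    calc √(w i) * u i * (√(w i) * v i) = (√(w i) * √(w i)) * (u i * v i) := by ring
      _ = w i * (u i * v i) := by rw [e i]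
  have e2 : ∀ i, (√(w i) * u i) ^ 2 = w i * (u i) ^ 2 := fun i => by
    rw [mul_pow, Real.sq_sqrt (hw i).le]
  have e3 : ∀ i, (√(w i) * v i) ^ 2 = w i * (v i) ^ 2 := fun i => by
    rw [mul_pow, Real.sq_sqrt (hw i).le]
  simp only [e1, e2, e3] at h
  exact h

private theorem sqnn1 {n : ℕ} {w : Fin n → ℝ} (hw : ∀ i, 0 < w i) (u : Fin n → ℝ) :
    0 ≤ ∑ i, w i * (u i) ^ 2 :=
  Finset.sum_nonneg fun i _ => mul_nonneg (hw i).le (sq_nonneg _)

private theorem T1 {n : ℕ} {w : Fin n → ℝ} (hw : ∀ i, 0 < w i) {M : Matrix (Fin n) (Fin n) ℝ}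
    (hM : Mk w M) (u : Fin n → ℝ) :
    ∑ i, w i * (act (1 - M) u i) ^ 2 ≤ 4 * ∑ i, w i * (u i) ^ 2 := by
  have h1 := hM.norm_l2 hw u
  simp only [Real.norm_eq_abs, sq_abs] at h1
  have h2 : ∑ i, w i * (act (1 - M) u i) ^ 2 ≤
      ∑ i, (2 * (w i * (u i) ^ 2) + 2 * (w i * (act M u i) ^ 2)) := by
    refine Finset.sum_le_sum fun i _ => ?_
    rw [act_one_sub, Pi.sub_apply]
    have h3 : (u i - act M u i) ^ 2 ≤ 2 * (u i) ^ 2 + 2 * (act M u i) ^ 2 := by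
      nlinarith [sq_nonneg (u i + act M u i)]
    have h4 := mul_le_mul_of_nonneg_left h3 (hw i).le
    linarith
  rw [Finset.sum_add_distrib, ← Finset.mul_sum, ← Finset.mul_sum] at h2
  linarith

private theorem star1 {n : ℕ} {w : Fin n → ℝ} (hw : ∀ i, 0 < w i)
    {M Q : Matrix (Fin n) (Fin n) ℝ} (hM : Mk w M) (hQ : Mk w Q) (b : ℝ) (hb0 : 0 ≤ b)
    (hb : ∀ g : Fin n → ℝ,
      ∑ i, w i * (act ((1 - M) * (Q * Q)) g i) ^ 2 ≤ b ^ 2 * ∑ i, w i * (g i) ^ 2)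
    (u : Fin n → ℝ) :
    ∑ i, w i * (act Q (act (1 - M) u) i) ^ 2 ≤ 2 * b * ∑ i, w i * (u i) ^ 2 := by
  have e1 : ∑ i, w i * (act Q (act (1 - M) u) i) ^ 2 =
      ∑ i, w i * (u i * act ((1 - M) * (Q * Q)) (act (1 - M) u) i) := by
    have h1 := adj1 hQ (act (1 - M) u) (act Q (act (1 - M) u))
    have h2 := adjT1 hM u (act Q (act Q (act (1 - M) u)))
    rw [act_mul, act_mul, ← h2, ← h1]
    exact Finset.sum_congr rfl fun i _ => by ring
  have h3 := cs1 hw u (act ((1 - M) * (Q * Q)) (act (1 - M) u))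
  rw [← e1] at h3
  have h4 := hb (act (1 - M) u)
  have h5 := T1 hw hM u
  have h6 := sqnn1 hw u
  have h7 := sqnn1 hw (act Q (act (1 - M) u))
  have h8 : ∑ i, w i * (act ((1 - M) * (Q * Q)) (act (1 - M) u) i) ^ 2 ≤
      4 * b ^ 2 * ∑ i, w i * (u i) ^ 2 := by
    have := mul_le_mul_of_nonneg_left h5 (sq_nonneg b)
    linarith
  have h9 : (∑ i, w i * (act Q (act (1 - M) u) i) ^ 2) ^ 2 ≤
      (2 * b * ∑ i, w i * (u i) ^ 2) ^ 2 := by
    have := mul_le_mul_of_nonneg_left h8 h6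
    refine h3.trans (this.trans (le_of_eq ?_))
    ring
  exact le_of_sq_le_sq1 h9 (by positivity)

theorem root_step {n : ℕ} {w : Fin n → ℝ} (hw : ∀ i, 0 < w i) {M Q : Matrix (Fin n) (Fin n) ℝ}
    (hM : Mk w M) (hQ : Mk w Q) (b : ℝ) (hb0 : 0 ≤ b)
    (hb : ∀ g : Fin n → ℝ,
      ∑ i, w i * (act ((1 - M) * (Q * Q)) g i) ^ 2 ≤ b ^ 2 * ∑ i, w i * (g i) ^ 2)
    (g : Fin n → ℝ) :
    ∑ i, w i * (act ((1 - M) * Q) g i) ^ 2 ≤ (2 * b) * ∑ i, w i * (g i) ^ 2 := by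
  have e1 : ∑ i, w i * (act ((1 - M) * Q) g i) ^ 2 =
      ∑ i, w i * (g i * act Q (act (1 - M) (act ((1 - M) * Q) g)) i) := by
    have h1 := adjT1 hM (act Q g) (act ((1 - M) * Q) g)
    have h2 := adj1 hQ g (act (1 - M) (act ((1 - M) * Q) g))
    rw [← h2, ← h1, act_mul]
    exact Finset.sum_congr rfl fun i _ => by ring
  have h3 := cs1 hw g (act Q (act (1 - M) (act ((1 - M) * Q) g)))
  rw [← e1] at h3
  have h4 := star1 hw hM hQ b hb0 hb (act ((1 - M) * Q) g)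
  have h6 := sqnn1 hw g
  have h7 := sqnn1 hw (act ((1 - M) * Q) g)
  set X := ∑ i, w i * (act ((1 - M) * Q) g i) ^ 2 with hX
  set G := ∑ i, w i * (g i) ^ 2 with hG
  have h8 : X ^ 2 ≤ G * (2 * b * X) := h3.trans (mul_le_mul_of_nonneg_left h4 h6)
  rcases h7.eq_or_lt with h9 | h9
  · rw [← h9]
    positivity
  · have h10 : X * X ≤ (2 * b * G) * X := by
      calc X * X = X ^ 2 := by ring
        _ ≤ G * (2 * b * X) := h8
        _ = (2 * b * G) * X := by ring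
    exact le_of_mul_le_mul_right h10 h9

theorem root_all (K : ℕ) (β : ℝ) (hβ : 0 < β) :
    ∃ δ : ℝ, 0 < δ ∧ ∀ (n : ℕ) (w : Fin n → ℝ) (M P : Matrix (Fin n) (Fin n) ℝ),
      (∀ i, 0 < w i) → Mk w M → Mk w P →
      (∀ g : Fin n → ℝ, ∑ i, w i * (act ((1 - M) * P ^ 2 ^ K) g i) ^ 2 ≤
        δ ^ 2 * ∑ i, w i * (g i) ^ 2) →
      ∀ j ≤ K, ∀ g : Fin n → ℝ, ∑ i, w i * (act ((1 - M) * P ^ 2 ^ j) g i) ^ 2 ≤
        β ^ 2 * ∑ i, w i * (g i) ^ 2 := by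
  induction K with
  | zero =>
    refine ⟨β, hβ, fun n w M P _ _ _ h j hj => ?_⟩
    obtain rfl : j = 0 := by omega
    exact h
  | succ K ih =>
    obtain ⟨δ, hδ, ih⟩ := ih
    refine ⟨min β (δ ^ 2 / 2), lt_min hβ (by positivity), fun n w M P hw hM hP h j hj g => ?_⟩
    have hpos : 0 < min β (δ ^ 2 / 2) := lt_min hβ (by positivity)
    rcases Nat.lt_or_ge K j with hjK | hjK
    · obtain rfl : j = K + 1 := by omega
      refine (h g).trans (mul_le_mul_of_nonneg_right ?_ (sqnn1 hw g))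
      exact pow_le_pow_left₀ hpos.le (min_le_left _ _) 2
    · refine ih n w M P hw hM hP (fun g => ?_) j hjK g
      have e : P ^ 2 ^ K * P ^ 2 ^ K = P ^ 2 ^ (K + 1) := by
        rw [← pow_add, ← two_mul, ← pow_succ']
      have h1 := root_step hw hM (hP.pow (2 ^ K)) (min β (δ ^ 2 / 2)) hpos.le
        (fun g => by rw [e]; exact h g) g
      refine h1.trans (mul_le_mul_of_nonneg_right ?_ (sqnn1 hw g))
      have h2 : min β (δ ^ 2 / 2) ≤ δ ^ 2 / 2 := min_le_right _ _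
      linarith

end Pool.Agent.Helper82.MK
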