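import Pool.Agent.Helper82.MK.Scale
import Pool.Agent.Helper82.MK.Near
import Pool.Agent.Helper82.MK.Hil
import Pool.Agent.Helper82.MK.Root
import Pool.Agent.Helper82.MK.Emb

/-!
# Block MK-BWD: a uniform embedding implies the Markov criterion (assembly)

PROOF. Given `η`. Let `D` from `bounded_of_emb`, `A'` from `emb_lower` with `η / 8`, `η4 = η / (8 A')`, `θ = (η4 / (2 D)) ^ 2`, `A` from `emb_upper` with
`θ / 32`, `ε = min (θ / (64 A)) (η / 8)`, `K` from `exists_scale h ε`, `β = √(θ / (4 D²))`, `δ` from `root_all K β`; `MCurved` with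
`N = 2 ^ K` and `δ`. Let `w`, `M`, `P`, `f` be given, `j < K` from the scale, `Q = P ^ 2 ^ j`, `Q * Q = P ^ 2 ^ (j + 1)`,
`g = act (P ^ (2 ^ K - 2 ^ (j + 1))) f`, `act (Q * Q) g = act (P ^ 2 ^ K) f`. `‖g i‖ ≤ 1` (`Mk.norm_sup`), so `h i = F (g i) - F 0` makes
sense, `‖h i‖ ≤ D`.
`∑ w (QQ) ‖h y - h z‖² ≤ θ / 32 + A ∑ w (QQ) ‖g y - g z‖ ≤ θ / 32 + 2 A ε` (`near_two`), so `∑ w ‖h - QQ h‖² ≤ θ / 32 + 2 A ε` (`Mk.sub_l2`).
`(1 - M) h = (1 - M) (h - QQ h) + (1 - M) QQ h`: `∑ w ‖(1 - M) h‖² ≤ 2 * 4 * (θ / 32 + 2 A ε) + 2 β² D² ≤ θ` (`‖(1 - M) u‖² ≤ 2 ‖u‖² + 2 ‖M u‖²`, `Mk.norm_l2`;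
`hilbert_bound` with the bound `β²` of `root_all` for `j + 1 ≤ K`).
`∑_ij w_i M_ij ‖h_i - h_j‖² = 2 ∑ w ⟪(1 - M) h, h⟫ ≤ 2 √θ D = η4` (`Mk.energy`, Cauchy-Schwarz), so by `emb_lower`
`∑_ij w_i M_ij ‖g_i - g_j‖ ≤ η / 8 + A' η4 = η / 4`, and `∑ w ‖(1 - M) g‖ ≤ η / 4` (`Mk.sub_l1`).
`∑ w ‖(1 - M) P^N f‖ ≤ ∑ w ‖(1 - M) g‖ + ∑ w ‖(1 - M) (g - QQ g)‖ ≤ η / 4 + 2 ε ≤ η` (`near_one`).
-/

universe u v

namespace Pool.Agent.Helper82.MK

open Finset

open scoped InnerProductSpace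

private theorem l2_one_sub86 {n : ℕ} {w : Fin n → ℝ} (hw : ∀ i, 0 < w i) {E : Type*}
    [NormedAddCommGroup E] [NormedSpace ℝ E] {M : Matrix (Fin n) (Fin n) ℝ} (hM : Mk w M)
    (u : Fin n → E) : ∑ i, w i * ‖act (1 - M) u i‖ ^ 2 ≤ 4 * ∑ i, w i * ‖u i‖ ^ 2 := by
  have h1 := hM.norm_l2 hw u
  have h2 : ∑ i, w i * ‖act (1 - M) u i‖ ^ 2 ≤
      ∑ i, (2 * (w i * ‖u i‖ ^ 2) + 2 * (w i * ‖act M u i‖ ^ 2)) := by
    refine Finset.sum_le_sum fun i _ => ?_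
    rw [act_one_sub, Pi.sub_apply]
    have h3 : ‖u i - act M u i‖ ^ 2 ≤ 2 * ‖u i‖ ^ 2 + 2 * ‖act M u i‖ ^ 2 := by
      have h4 := norm_sub_le (u i) (act M u i)
      have h5 : ‖u i - act M u i‖ ^ 2 ≤ (‖u i‖ + ‖act M u i‖) ^ 2 :=
        pow_le_pow_left₀ (norm_nonneg _) h4 2
      nlinarith [sq_nonneg (‖u i‖ - ‖act M u i‖)]
    have h6 := mul_le_mul_of_nonneg_left h3 (hw i).le
    rw [mul_add] at h6
    linarith [mul_left_comm (w i) 2 (‖u i‖ ^ 2), mul_left_comm (w i) 2 (‖act M u i‖ ^ 2)]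
  rw [Finset.sum_add_distrib, ← Finset.mul_sum, ← Finset.mul_sum] at h2
  linarith

private theorem l1_one_sub86 {n : ℕ} {w : Fin n → ℝ} (hw : ∀ i, 0 < w i) {E : Type*}
    [NormedAddCommGroup E] [NormedSpace ℝ E] {M : Matrix (Fin n) (Fin n) ℝ} (hM : Mk w M)
    (u : Fin n → E) : ∑ i, w i * ‖act (1 - M) u i‖ ≤ 2 * ∑ i, w i * ‖u i‖ := by
  have h1 := hM.norm_l1 hw u
  have h2 : ∑ i, w i * ‖act (1 - M) u i‖ ≤ ∑ i, (w i * ‖u i‖ + w i * ‖act M u i‖) := by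
    refine Finset.sum_le_sum fun i _ => ?_
    rw [act_one_sub, Pi.sub_apply, ← mul_add]
    exact mul_le_mul_of_nonneg_left (norm_sub_le _ _) (hw i).le
  rw [Finset.sum_add_distrib] at h2
  linarith

private theorem total86 {n : ℕ} {w : Fin n → ℝ} (hW : Wt w) {M : Matrix (Fin n) (Fin n) ℝ}
    (hM : Mk w M) (a A : ℝ) (k : Fin n → Fin n → ℝ) :
    ∑ i, ∑ j, w i * M i j * (a + A * k i j) = a + A * ∑ i, ∑ j, w i * M i j * k i j := by
  have h1 : ∑ i, ∑ j, w i * M i j * (a + A * k i j) =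
      a * ∑ i, w i * ∑ j, M i j + A * ∑ i, ∑ j, w i * M i j * k i j := by
    rw [Finset.mul_sum, Finset.mul_sum, ← Finset.sum_add_distrib]
    refine Finset.sum_congr rfl fun i _ => ?_
    rw [Finset.mul_sum, Finset.mul_sum, Finset.mul_sum, ← Finset.sum_add_distrib]
    exact Finset.sum_congr rfl fun j _ => by ring
  rw [h1]
  congr 1
  simp only [hM.row, mul_one, hW.2]

theorem mcurved_of_embedding {X : Type u} [NormedAddCommGroup X] [NormedSpace ℝ X] {N : X → ℝ}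
    {c C : ℝ} (h : UCN X N c C) {H : Type v} [NormedAddCommGroup H] [InnerProductSpace ℝ H]
    (F : Metric.closedBall (0 : X) 1 → H) (hF : IsUniformEmbedding F) : MCurved X := by
  intro η hη
  have huc : UniformContinuous F := hF.uniformContinuous
  obtain ⟨D, hD, hDF⟩ := bounded_of_emb F huc
  obtain ⟨A', hA', hlow⟩ := emb_lower F hF (η / 8) (by positivity)
  obtain ⟨r, hr⟩ : ∃ r : ℝ, r = η / (8 * A') / (2 * D) := ⟨_, rfl⟩
  have hr0 : 0 < r := by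
    rw [hr]
    positivity
  have hθ : 0 < r ^ 2 := by positivity
  obtain ⟨A, hA, hup⟩ := emb_upper F huc (r ^ 2 / 32) (by positivity)
  obtain ⟨ε, hε⟩ : ∃ ε : ℝ, ε = min (r ^ 2 / (64 * A)) (η / 8) := ⟨_, rfl⟩
  have hε0 : 0 < ε := by
    rw [hε]
    positivity
  have hε1 : A * ε ≤ r ^ 2 / 64 := by
    have h1 : ε ≤ r ^ 2 / (64 * A) := by
      rw [hε]
      exact min_le_left _ _
    calc A * ε ≤ A * (r ^ 2 / (64 * A)) := mul_le_mul_of_nonneg_left h1 hA.le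
      _ = r ^ 2 / 64 := by field_simp
  have hε2 : ε ≤ η / 8 := by
    rw [hε]
    exact min_le_right _ _
  obtain ⟨K, hK, hscale⟩ := exists_scale h ε hε0
  obtain ⟨δ, hδ, hroot⟩ := root_all K (r / (2 * D)) (by positivity)
  refine ⟨2 ^ K, by positivity, δ, hδ, ?_⟩
  intro n w M P hW hM hP hb f hf
  obtain ⟨j, hjK, hj⟩ := hscale n w P hW hP f hf
  set Q := P ^ 2 ^ j with hQd
  set g := act (P ^ (2 ^ K - 2 ^ (j + 1))) f with hg
  have hQ : Mk w Q := hP.pow _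
  have hQQe : Q * Q = P ^ 2 ^ (j + 1) := by
    rw [hQd, ← pow_add]
    congr 1
    rw [pow_succ]
    ring
  have hQQ : Mk w (Q * Q) := by
    rw [hQQe]
    exact hP.pow _
  have hle : 2 ^ (j + 1) ≤ 2 ^ K := Nat.pow_le_pow_right (by norm_num) hjK
  have hQQg : act (Q * Q) g = act (P ^ 2 ^ K) f := by
    rw [hg, ← act_mul, hQQe, ← pow_add]
    congr 2
    omega
  have hgn : ∀ i, ‖g i‖ ≤ 1 := fun i => (hP.pow _).norm_sup hf i
  let G : Fin n → Metric.closedBall (0 : X) 1 := fun i => ⟨g i, by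
    rw [mem_closedBall_zero_iff]
    exact hgn i⟩
  let o : Metric.closedBall (0 : X) 1 := ⟨0, by
    rw [mem_closedBall_zero_iff, norm_zero]
    exact zero_le_one⟩
  let hh : Fin n → H := fun i => F (G i) - F o
  have hhD : ∀ i, ‖hh i‖ ≤ D := fun i => hDF _ _
  have hhs : ∀ i l, hh i - hh l = F (G i) - F (G l) := fun i l => by
    show F (G i) - F o - (F (G l) - F o) = _
    abel
  have hw := hW.1
  -- the total mass of `‖h‖ ^ 2`
  have hmass : ∑ i, w i * ‖hh i‖ ^ 2 ≤ D ^ 2 := by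
    calc ∑ i, w i * ‖hh i‖ ^ 2 ≤ ∑ i, w i * D ^ 2 := by
          refine Finset.sum_le_sum fun i _ => mul_le_mul_of_nonneg_left ?_ (hw i).le
          exact pow_le_pow_left₀ (norm_nonneg _) (hhD i) 2
      _ = D ^ 2 := by rw [← Finset.sum_mul, hW.2, one_mul]
  -- `h` moves little along `Q * Q`
  have s1 : ∑ y, ∑ z, w y * (Q * Q) y z * ‖hh y - hh z‖ ^ 2 ≤ r ^ 2 / 16 := by
    have h1 : ∑ y, ∑ z, w y * (Q * Q) y z * ‖hh y - hh z‖ ^ 2 ≤
        ∑ y, ∑ z, w y * (Q * Q) y z * (r ^ 2 / 32 + A * ‖g y - g z‖) := by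
      refine Finset.sum_le_sum fun y _ => Finset.sum_le_sum fun z _ => ?_
      refine mul_le_mul_of_nonneg_left ?_ (mul_nonneg (hw y).le (hQQ.nonneg y z))
      rw [hhs]
      exact hup (G y) (G z)
    rw [total86 hW hQQ] at h1
    have h2 := near_two hw hQ g
    have h3 : A * ∑ y, ∑ z, w y * (Q * Q) y z * ‖g y - g z‖ ≤ A * (2 * ε) :=
      mul_le_mul_of_nonneg_left (h2.trans (mul_le_mul_of_nonneg_left hj (by norm_num))) hA.le
    have h5 : A * (2 * ε) = 2 * (A * ε) := by ring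
    linarith
  have s2 : ∑ i, w i * ‖hh i - act (Q * Q) hh i‖ ^ 2 ≤ r ^ 2 / 16 :=
    (hQQ.sub_l2 hw hh).trans s1
  have s3 : ∑ i, w i * ‖act (1 - M) (hh - act (Q * Q) hh) i‖ ^ 2 ≤ r ^ 2 / 4 := by
    have h1 := l2_one_sub86 hw hM (hh - act (Q * Q) hh)
    have h2 : ∑ i, w i * ‖(hh - act (Q * Q) hh) i‖ ^ 2 ≤ r ^ 2 / 16 := s2
    linarith
  have s4 : ∑ i, w i * ‖act ((1 - M) * (Q * Q)) hh i‖ ^ 2 ≤ r ^ 2 / 4 := by
    have h1 := hilbert_bound w ((1 - M) * (Q * Q)) ((r / (2 * D)) ^ 2) (fun g' => by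
      rw [hQQe]
      exact hroot n w M P hw hM hP hb (j + 1) hjK g') hh
    refine h1.trans ?_
    calc (r / (2 * D)) ^ 2 * ∑ i, w i * ‖hh i‖ ^ 2 ≤ (r / (2 * D)) ^ 2 * D ^ 2 :=
          mul_le_mul_of_nonneg_left hmass (by positivity)
      _ = r ^ 2 / 4 := by
          field_simp
          norm_num
  have s5 : ∑ i, w i * ‖act (1 - M) hh i‖ ^ 2 ≤ r ^ 2 := by
    have h1 : ∑ i, w i * ‖act (1 - M) hh i‖ ^ 2 ≤
        ∑ i, (2 * (w i * ‖act (1 - M) (hh - act (Q * Q) hh) i‖ ^ 2) +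
          2 * (w i * ‖act ((1 - M) * (Q * Q)) hh i‖ ^ 2)) := by
      refine Finset.sum_le_sum fun i _ => ?_
      have h2 : act (1 - M) hh i = act (1 - M) (hh - act (Q * Q) hh) i +
          act ((1 - M) * (Q * Q)) hh i := by
        rw [act_fun_sub, act_mul (1 - M) (Q * Q) hh, Pi.sub_apply, sub_add_cancel]
      rw [h2]
      set a := act (1 - M) (hh - act (Q * Q) hh) i
      set b := act ((1 - M) * (Q * Q)) hh i
      have h3 : ‖a + b‖ ^ 2 ≤ 2 * ‖a‖ ^ 2 + 2 * ‖b‖ ^ 2 := by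
        have h5 : ‖a + b‖ ^ 2 ≤ (‖a‖ + ‖b‖) ^ 2 :=
          pow_le_pow_left₀ (norm_nonneg _) (norm_add_le a b) 2
        nlinarith [sq_nonneg (‖a‖ - ‖b‖)]
      have h6 := mul_le_mul_of_nonneg_left h3 (hw i).le
      rw [mul_add] at h6
      linarith [mul_left_comm (w i) 2 (‖a‖ ^ 2), mul_left_comm (w i) 2 (‖b‖ ^ 2)]
    rw [Finset.sum_add_distrib, ← Finset.mul_sum, ← Finset.mul_sum] at h1
    linarith
  -- the energy of `h`
  have s6 : ∑ i, ∑ l, w i * M i l * ‖hh i - hh l‖ ^ 2 ≤ 2 * D * r := by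
    rw [← hM.energy hh, Finset.mul_sum]
    have h1 : ∑ i, 2 * (w i * ⟪hh i - act M hh i, hh i⟫_ℝ) ≤
        ∑ i, (D / r * (w i * ‖act (1 - M) hh i‖ ^ 2) + r / D * (w i * ‖hh i‖ ^ 2)) := by
      refine Finset.sum_le_sum fun i _ => ?_
      have h2 : act (1 - M) hh i = hh i - act M hh i := by
        rw [act_one_sub, Pi.sub_apply]
      rw [← h2]
      set a := act (1 - M) hh i
      have h3 := real_inner_le_norm a (hh i)
      have h4 : 2 * (‖a‖ * ‖hh i‖) ≤ D / r * ‖a‖ ^ 2 + r / D * ‖hh i‖ ^ 2 := by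
        have h5 : D / r * ‖a‖ ^ 2 + r / D * ‖hh i‖ ^ 2 - 2 * (‖a‖ * ‖hh i‖) =
            (D * ‖a‖ - r * ‖hh i‖) ^ 2 / (D * r) := by
          field_simp
          ring
        have h6 : 0 ≤ (D * ‖a‖ - r * ‖hh i‖) ^ 2 / (D * r) := by positivity
        linarith
      have h7 : 2 * ⟪a, hh i⟫_ℝ ≤ D / r * ‖a‖ ^ 2 + r / D * ‖hh i‖ ^ 2 := by linarith
      have h8 := mul_le_mul_of_nonneg_left h7 (hw i).le
      rw [mul_add] at h8
      linarith [mul_left_comm (w i) 2 ⟪a, hh i⟫_ℝ, mul_left_comm (w i) (D / r) (‖a‖ ^ 2),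
        mul_left_comm (w i) (r / D) (‖hh i‖ ^ 2)]
    rw [Finset.sum_add_distrib] at h1
    simp only [← Finset.mul_sum] at h1 ⊢
    have h9 : D / r * ∑ i, w i * ‖act (1 - M) hh i‖ ^ 2 ≤ D * r := by
      calc D / r * ∑ i, w i * ‖act (1 - M) hh i‖ ^ 2 ≤ D / r * r ^ 2 :=
            mul_le_mul_of_nonneg_left s5 (by positivity)
        _ = D * r := by field_simp
    have h10 : r / D * ∑ i, w i * ‖hh i‖ ^ 2 ≤ D * r := by
      calc r / D * ∑ i, w i * ‖hh i‖ ^ 2 ≤ r / D * D ^ 2 :=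
            mul_le_mul_of_nonneg_left hmass (by positivity)
        _ = D * r := by field_simp
    linarith
  have h4e : 2 * D * r = η / (8 * A') := by
    rw [hr]
    field_simp
  have s7 : ∑ i, ∑ l, w i * M i l * ‖g i - g l‖ ≤ η / 4 := by
    have h1 : ∑ i, ∑ l, w i * M i l * ‖g i - g l‖ ≤
        ∑ i, ∑ l, w i * M i l * (η / 8 + A' * ‖hh i - hh l‖ ^ 2) := by
      refine Finset.sum_le_sum fun y _ => Finset.sum_le_sum fun z _ => ?_
      refine mul_le_mul_of_nonneg_left ?_ (mul_nonneg (hw y).le (hM.nonneg y z))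
      rw [hhs]
      exact hlow (G y) (G z)
    rw [total86 hW hM] at h1
    have h2 : A' * ∑ i, ∑ l, w i * M i l * ‖hh i - hh l‖ ^ 2 ≤ A' * (η / (8 * A')) :=
      mul_le_mul_of_nonneg_left (s6.trans h4e.le) hA'.le
    have h3 : A' * (η / (8 * A')) = η / 8 := by field_simp
    linarith
  have s8 : ∑ i, w i * ‖act (1 - M) g i‖ ≤ η / 4 := by
    have h1 := (hM.sub_l1 hw g).trans s7
    refine le_trans (le_of_eq ?_) h1
    exact Finset.sum_congr rfl fun i _ => by rw [act_one_sub, Pi.sub_apply]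
  have s9 : ∑ i, w i * ‖act (1 - M) (g - act (Q * Q) g) i‖ ≤ 2 * ε := by
    have h1 := l1_one_sub86 hw hM (g - act (Q * Q) g)
    have h2 : ∑ i, w i * ‖(g - act (Q * Q) g) i‖ ≤ ε := (near_one hw hQ g).trans hj
    linarith
  have s10 : ∑ i, w i * ‖act ((1 - M) * P ^ 2 ^ K) f i‖ ≤
      ∑ i, (w i * ‖act (1 - M) g i‖ + w i * ‖act (1 - M) (g - act (Q * Q) g) i‖) := by
    refine Finset.sum_le_sum fun i _ => ?_
    have h1 : act ((1 - M) * P ^ 2 ^ K) f i =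
        act (1 - M) g i - act (1 - M) (g - act (Q * Q) g) i := by
      rw [act_mul, ← hQQg, act_fun_sub, Pi.sub_apply, sub_sub_cancel]
    rw [h1, ← mul_add]
    exact mul_le_mul_of_nonneg_left (norm_sub_le _ _) (hw i).le
  rw [Finset.sum_add_distrib] at s10
  linarith

end Pool.Agent.Helper82.MK
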