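import Mathlib

/-!
# Block MK-CPT: from finite sets to a kernel (Mathlib only)

`B` a set with a base point `o`; the kernel is an ultralimit of the Gram matrices of the vectors `G(x) - G(o)`.

PROOF. For a finite set `S` let `m`, `G` be as in `hfin` for `insert o S`, and
`Γ_S x y = ∑ k, (G k x - G k o) (G k y - G k o)` if `x, y ∈ insert o S`, and `0` otherwise. Then (i) `Γ_S` is symmetric,
(ii) `∑_(x ∈ T) ∑_(y ∈ T) a x a y Γ_S x y = ∑_k (∑_(x ∈ T, x ∈ insert o S) a x (G k x - G k o))² ≥ 0`, (iii) `|Γ_S x y| ≤ b`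
(Cauchy-Schwarz and `u x o ≤ b`, `u y o ≤ b`), (iv) for `x, y ∈ insert o S`:
`Γ_S x x + Γ_S y y - 2 Γ_S x y = ∑_k (G k x - G k y)²`. Let `F` be an ultrafilter on `Finset B` with `F ≤ atTop`
(`Ultrafilter.of atTop`). For all `x y` the numbers `Γ_S x y` lie in the compact interval `[-b, b]`, so they have a limit `K x y`
along `F` (`IsCompact.ultrafilter_le_nhds` for the ultrafilter `F.map (fun S => Γ_S x y)`). The properties pass to the
limit (finite sums of limits, `ge_of_tendsto`, `le_of_tendsto`; `x, y ∈ insert o S` holds eventually).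
-/

namespace Pool.Agent.Helper82.MK

open Finset

/-- The vectors `G x - G o`. -/
private noncomputable def vec56 {B : Type*} (o : B) (m : Finset B → ℕ)
    (G : ∀ S : Finset B, Fin (m S) → B → ℝ) (S : Finset B) [DecidableEq B]
    (k : Fin (m (insert o S))) (x : B) : ℝ :=
  if x ∈ insert o S then G (insert o S) k x - G (insert o S) k o else 0

/-- The Gram matrix. -/
private noncomputable def gam56 {B : Type*} (o : B) (m : Finset B → ℕ)
    (G : ∀ S : Finset B, Fin (m S) → B → ℝ) (S : Finset B) [DecidableEq B] (x y : B) : ℝ :=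
  ∑ k, vec56 o m G S k x * vec56 o m G S k y

private lemma gam_symm56 {B : Type*} (o : B) (m : Finset B → ℕ)
    (G : ∀ S : Finset B, Fin (m S) → B → ℝ) (S : Finset B) [DecidableEq B] (x y : B) :
    gam56 o m G S x y = gam56 o m G S y x :=
  Finset.sum_congr rfl fun _ _ => mul_comm _ _

private lemma gam_pos56 {B : Type*} (o : B) (m : Finset B → ℕ)
    (G : ∀ S : Finset B, Fin (m S) → B → ℝ) (S : Finset B) [DecidableEq B] (T : Finset B)
    (a : B → ℝ) : 0 ≤ ∑ x ∈ T, ∑ y ∈ T, a x * a y * gam56 o m G S x y := by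
  have e : ∑ x ∈ T, ∑ y ∈ T, a x * a y * gam56 o m G S x y =
      ∑ k, (∑ x ∈ T, a x * vec56 o m G S k x) ^ 2 := by
    have e1 : ∀ k, (∑ x ∈ T, a x * vec56 o m G S k x) ^ 2 =
        ∑ x ∈ T, ∑ y ∈ T, a x * a y * (vec56 o m G S k x * vec56 o m G S k y) := by
      intro k
      rw [sq, Finset.sum_mul_sum]
      refine Finset.sum_congr rfl fun x _ => Finset.sum_congr rfl fun y _ => ?_
      ring
    symm
    rw [Finset.sum_congr rfl (fun k _ => e1 k), Finset.sum_comm]
    refine Finset.sum_congr rfl fun x _ => ?_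
    rw [Finset.sum_comm]
    refine Finset.sum_congr rfl fun y _ => ?_
    rw [gam56, Finset.mul_sum]
  rw [e]
  exact Finset.sum_nonneg fun k _ => sq_nonneg _

private lemma gam_abs56 {B : Type*} (o : B) (m : Finset B → ℕ)
    (G : ∀ S : Finset B, Fin (m S) → B → ℝ) (S : Finset B) [DecidableEq B] {b : ℝ}
    (hb : ∀ x, ∑ k, vec56 o m G S k x ^ 2 ≤ b) (x y : B) : |gam56 o m G S x y| ≤ b := by
  have h0 : 0 ≤ ∑ k, vec56 o m G S k x ^ 2 := Finset.sum_nonneg fun k _ => sq_nonneg _
  have h0' : 0 ≤ ∑ k, vec56 o m G S k y ^ 2 := Finset.sum_nonneg fun k _ => sq_nonneg _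
  have hb0 : 0 ≤ b := h0.trans (hb x)
  have h1 : gam56 o m G S x y ^ 2 ≤ b ^ 2 := by
    refine (Finset.sum_mul_sq_le_sq_mul_sq Finset.univ (fun k => vec56 o m G S k x)
      (fun k => vec56 o m G S k y)).trans ?_
    rw [sq b]
    exact mul_le_mul (hb x) (hb y) h0' hb0
  exact abs_le_of_sq_le_sq h1 hb0

private lemma gam_dist56 {B : Type*} (o : B) (m : Finset B → ℕ)
    (G : ∀ S : Finset B, Fin (m S) → B → ℝ) (S : Finset B) [DecidableEq B] {x y : B}
    (hx : x ∈ insert o S) (hy : y ∈ insert o S) :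
    gam56 o m G S x x + gam56 o m G S y y - 2 * gam56 o m G S x y =
      ∑ k, (G (insert o S) k x - G (insert o S) k y) ^ 2 := by
  unfold gam56
  rw [Finset.mul_sum, ← Finset.sum_add_distrib, ← Finset.sum_sub_distrib]
  refine Finset.sum_congr rfl fun k _ => ?_
  unfold vec56
  rw [if_pos hx, if_pos hy]
  ring

theorem compactness {B : Type*} (o : B) (u : B → B → ℝ) (far : B → B → Prop) (b : ℝ)
    (hb : ∀ x, u x o ≤ b)
    (hfin : ∀ S : Finset B, ∃ (m : ℕ) (G : Fin m → B → ℝ), ∀ x ∈ S, ∀ y ∈ S,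
      ∑ k, (G k x - G k y) ^ 2 ≤ u x y ∧ (far x y → 1 ≤ ∑ k, (G k x - G k y) ^ 2)) :
    ∃ K : B → B → ℝ, (∀ x y, K x y = K y x) ∧
      (∀ (T : Finset B) (a : B → ℝ), 0 ≤ ∑ x ∈ T, ∑ y ∈ T, a x * a y * K x y) ∧
      (∀ x y, |K x y| ≤ b) ∧ (∀ x y, K x x + K y y - 2 * K x y ≤ u x y) ∧
      ∀ x y, far x y → 1 ≤ K x x + K y y - 2 * K x y := by
  classical
  choose m G hG using hfin
  have hvb : ∀ (S : Finset B) (x : B), ∑ k, vec56 o m G S k x ^ 2 ≤ b := by
    intro S x
    have ho : o ∈ insert o S := Finset.mem_insert_self _ _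
    have h0 : 0 ≤ b := by
      have h1 := (hG (insert o S) o ho o ho).1
      simp only [sub_self] at h1
      have h2 : (0 : ℝ) ≤ u o o := by
        refine le_trans (Finset.sum_nonneg fun k _ => ?_) h1
        positivity
      exact h2.trans (hb o)
    by_cases hx : x ∈ insert o S
    · refine le_trans (le_of_eq ?_) (((hG (insert o S) x hx o ho).1).trans (hb x))
      refine Finset.sum_congr rfl fun k _ => ?_
      unfold vec56
      rw [if_pos hx]
    · refine le_trans (le_of_eq ?_) h0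
      refine Finset.sum_eq_zero fun k _ => ?_
      unfold vec56
      rw [if_neg hx]
      ring
  obtain ⟨F, hF⟩ : ∃ F : Ultrafilter (Finset B), F = Ultrafilter.of Filter.atTop := ⟨_, rfl⟩
  have hFle : (F : Filter (Finset B)) ≤ Filter.atTop := by
    rw [hF]
    exact Ultrafilter.of_le _
  have hlim : ∀ x y : B, ∃ c : ℝ, c ∈ Set.Icc (-b) b ∧
      Filter.Tendsto (fun S => gam56 o m G S x y) (F : Filter (Finset B)) (nhds c) := by
    intro x y
    have h1 : ((F.map (fun S => gam56 o m G S x y) : Ultrafilter ℝ) : Filter ℝ) ≤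
        Filter.principal (Set.Icc (-b) b) := by
      rw [Filter.le_principal_iff, Ultrafilter.coe_map, Filter.mem_map]
      refine Filter.univ_mem' fun S => ?_
      exact abs_le.mp (gam_abs56 o m G S (hvb S) x y)
    obtain ⟨c, hc, h2⟩ := isCompact_Icc.ultrafilter_le_nhds _ h1
    exact ⟨c, hc, h2⟩
  choose K hKb hK using hlim
  have hev : ∀ x y : B, ∀ᶠ S in (F : Filter (Finset B)), x ∈ insert o S ∧ y ∈ insert o S := by
    intro x y
    have h1 := hFle (Filter.eventually_ge_atTop ({x, y} : Finset B))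
    refine Filter.mem_of_superset h1 fun S hS => ?_
    have hS' : ({x, y} : Finset B) ⊆ S := hS
    exact ⟨Finset.mem_insert_of_mem (hS' (by simp)), Finset.mem_insert_of_mem (hS' (by simp))⟩
  have hdist : ∀ x y : B, Filter.Tendsto (fun S => gam56 o m G S x x + gam56 o m G S y y -
      2 * gam56 o m G S x y) (F : Filter (Finset B)) (nhds (K x x + K y y - 2 * K x y)) :=
    fun x y => ((hK x x).add (hK y y)).sub ((hK x y).const_mul 2)
  refine ⟨K, ?_, ?_, ?_, ?_, ?_⟩
  · intro x y
    refine tendsto_nhds_unique (hK x y) ?_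
    simp only [gam_symm56 o m G _ x y]
    exact hK y x
  · intro T a
    have h1 : Filter.Tendsto (fun S => ∑ x ∈ T, ∑ y ∈ T, a x * a y * gam56 o m G S x y)
        (F : Filter (Finset B)) (nhds (∑ x ∈ T, ∑ y ∈ T, a x * a y * K x y)) :=
      tendsto_finsetSum _ fun x _ => tendsto_finsetSum _ fun y _ => (hK x y).const_mul _
    exact ge_of_tendsto' h1 fun S => gam_pos56 o m G S T a
  · intro x y
    exact abs_le.mpr (hKb x y)
  · intro x y
    refine le_of_tendsto (hdist x y) ((hev x y).mono fun S hS => ?_)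
    rw [gam_dist56 o m G S hS.1 hS.2]
    exact (hG (insert o S) x hS.1 y hS.2).1
  · intro x y hxy
    refine ge_of_tendsto (hdist x y) ((hev x y).mono fun S hS => ?_)
    rw [gam_dist56 o m G S hS.1 hS.2]
    exact (hG (insert o S) x hS.1 y hS.2).2 hxy

end Pool.Agent.Helper82.MK
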