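import Pool.Agent.Helper82.MK.Defs

/-!
# Block MK-DUAL: duality functionals of an equivalent uniformly convex norm

PROOF of `exists_dual`. For `x = 0` (then `N x = 0`) take `φ = 0`. For `x ≠ 0` define on the line
`ℝ x` the functional `t x ↦ t N(x)^2`; it is bounded by `N(x) N(·)`, so it extends to `X` with
`φ z ≤ N x * N z` (`exists_extension_of_le_sublinear`, sublinear function `z ↦ N x * N z`); with `-z` one
gets `|φ z| ≤ N x * N z`.
`dual_mono`: `φ y = φ (x + y) - N(x)^2 ≤ N x * N (x + y) - N(x)^2`,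
`ψ x = ψ (x + y) - N(y)^2 ≤ N y * N (x + y) - N(y)^2`, so
`φ (x - y) - ψ (x - y) = N(x)^2 - φ y - ψ x + N(y)^2 ≥ 2 N(x)^2 + 2 N(y)^2 - (N x + N y) N (x + y)`, and this is the
left side.
-/

universe u

namespace Pool.Agent.Helper82.MK

open Finset

variable {X : Type u} [NormedAddCommGroup X] [NormedSpace ℝ X] {N : X → ℝ} {c C : ℝ}

theorem UCN.nonneg (h : UCN X N c C) (x : X) : 0 ≤ N x :=
  (mul_nonneg h.c_pos.le (norm_nonneg x)).trans (h.lower x)

theorem UCN.neg (h : UCN X N c C) (x : X) : N (-x) = N x := by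
  have h1 := h.smul (-1) x
  rwa [neg_one_smul, abs_neg, abs_one, one_mul] at h1

theorem UCN.zero (h : UCN X N c C) : N 0 = 0 := by
  have h1 := h.smul 0 0
  rwa [zero_smul, abs_zero, zero_mul] at h1

theorem UCN.pos (h : UCN X N c C) {x : X} (hx : x ≠ 0) : 0 < N x :=
  lt_of_lt_of_le (mul_pos h.c_pos (norm_pos_iff.2 hx)) (h.lower x)

theorem UCN.sum_le (h : UCN X N c C) {ι : Type*} (s : Finset ι) (f : ι → X) :
    N (∑ i ∈ s, f i) ≤ ∑ i ∈ s, N (f i) := by
  classical
  induction s using Finset.induction_on with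
  | empty => rw [Finset.sum_empty, Finset.sum_empty, h.zero]
  | insert a s ha ih =>
    rw [Finset.sum_insert ha, Finset.sum_insert ha]
    exact (h.add _ _).trans (add_le_add le_rfl ih)

theorem exists_dual (h : UCN X N c C) (x : X) :
    ∃ φ : X →ₗ[ℝ] ℝ, φ x = N x ^ 2 ∧ ∀ z, |φ z| ≤ N x * N z := by
  by_cases hx : x = 0
  · refine ⟨0, ?_, fun z => ?_⟩
    · rw [hx, h.zero]
      simp
    · rw [LinearMap.zero_apply, abs_zero]
      exact mul_nonneg (h.nonneg x) (h.nonneg z)
  · have hN := h.nonneg x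
    obtain ⟨g, hg1, hg2⟩ := exists_extension_of_le_sublinear
      (LinearPMap.mkSpanSingleton (K := ℝ) (L := ℝ) (σ := RingHom.id ℝ) x (N x ^ 2) hx)
      (fun z => N x * N z)
      (fun a ha z => by
        show N x * N (a • z) = a * (N x * N z)
        rw [h.smul, abs_of_pos ha]
        ring)
      (fun z z' => by
        show N x * N (z + z') ≤ N x * N z + N x * N z'
        have h1 := mul_le_mul_of_nonneg_left (h.add z z') hN
        linarith)
      (fun z => by
        obtain ⟨z, hz⟩ := z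
        obtain ⟨t, rfl⟩ := Submodule.mem_span_singleton.1 hz
        have h1 : (LinearPMap.mkSpanSingleton (K := ℝ) (L := ℝ) (σ := RingHom.id ℝ) x (N x ^ 2) hx)
            ⟨t • x, hz⟩ = t • (N x ^ 2) := LinearPMap.mkSpanSingleton'_apply _ _ _ _ _
        rw [h1]
        show t * N x ^ 2 ≤ N x * N (t • x)
        rw [h.smul]
        have h2 : t * N x ^ 2 ≤ |t| * N x ^ 2 := mul_le_mul_of_nonneg_right (le_abs_self t) (sq_nonneg _)
        calc t * N x ^ 2 ≤ |t| * N x ^ 2 := h2
          _ = N x * (|t| * N x) := by ring)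
    refine ⟨g, ?_, fun z => ?_⟩
    · have h1 := hg1 ⟨x, Submodule.mem_span_singleton_self x⟩
      have h2 := LinearPMap.mkSpanSingleton_apply ℝ ℝ (σ := RingHom.id ℝ) hx (N x ^ 2)
      rw [h2] at h1
      exact h1
    · rw [abs_le]
      constructor
      · have h1 : g (-z) ≤ N x * N (-z) := hg2 (-z)
        rw [h.neg, map_neg] at h1
        linarith
      · exact hg2 z

theorem dual_mono (h : UCN X N c C) (x y : X) (φ ψ : X →ₗ[ℝ] ℝ) (hφ : φ x = N x ^ 2)
    (hφ' : ∀ z, |φ z| ≤ N x * N z) (hψ : ψ y = N y ^ 2) (hψ' : ∀ z, |ψ z| ≤ N y * N z) :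
    (N x - N y) ^ 2 + (N x + N y) * (N x + N y - N (x + y)) ≤ φ (x - y) - ψ (x - y) := by
  have h1 := (abs_le.1 (hφ' (x + y))).2
  have h2 := (abs_le.1 (hψ' (x + y))).2
  rw [map_add] at h1 h2
  rw [map_sub, map_sub, hφ, hψ]
  rw [hφ] at h1
  rw [hψ] at h2
  have e : (N x - N y) ^ 2 + (N x + N y) * (N x + N y - N (x + y)) =
      2 * N x ^ 2 + 2 * N y ^ 2 - N x * N (x + y) - N y * N (x + y) := by ring
  rw [e]
  linarith

end Pool.Agent.Helper82.MK
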