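import Mathlib

/-!
# Block MK-SEP: separation of squared distance kernels from a box (Mathlib only)

PROOF. Work in `E = Fin n × Fin n → ℝ` (or `Fin n → Fin n → ℝ`). Let
`lo i j = if ε ≤ d i j then 1 else -1`, `hi i j = if i = j then 2 else d i j / κ`. Then `lo i j < hi i j` (if `i ≠ j` and
`ε ≤ d i j` then `d i j / κ ≥ ε / κ > 1`; note `d i i = 0 < ε`). The box `O = {K | ∀ i j, lo i j < K i j < hi i j}` is
open, convex and nonempty. `Q = {K | ∃ m (G : Fin m → Fin n → ℝ), ∀ i j, K i j = ∑ k, (G k i - G k j) ^ 2}` is convex (concatenate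
the two families, `Fin.append` / `Fin.addCases`, multiply by square roots of the weights), contains `0` (`m = 0`) and is
stable under multiplication by nonnegative numbers.
If `O` and `Q` meet, the first alternative holds (for `i = j` the sum is `0`). Otherwise
`geometric_hahn_banach_open` gives a continuous linear `f` and a real `u` with `f a < u ≤ f b` for `a ∈ O`, `b ∈ Q`. As `0 ∈ Q`, `u ≤ 0`;
as `Q` is a cone, `f b ≥ 0` on `Q` (if `f b < 0` then `f (t b) = t f b < u` for large `t`). Let
`F i j = f (E_ij)` (`E_ij` the unit vectors, `f K = ∑ F i j K i j`). The corner `top i j = if 0 ≤ F i j then hi i j else lo i j` is in the closure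
of `O` (for a point `o ∈ O` and `0 < t ≤ 1` the point `(1 - t) top + t o` is in `O`, so
`(1 - t) f top + t f o < u ≤ 0`; let `t → 0`), so `∑_{F ≥ 0} F hi + ∑_{F < 0} F lo ≤ 0`. Put `ν' = max F 0`,
`μ' i j = if ε ≤ d i j then max (-F i j) 0 else 0`. Then `∑ ν' hi + ∑_{not far, F < 0} |F| ≤ ∑ μ' =: s`. If `s ≤ 0` then all terms vanish, so
`F = 0` (`hi > 0`; far negative entries are counted in `μ'`), `f = 0`, against `f o < u ≤ 0 = f 0 `. So
`s > 0`; put `μ = μ' / s`, `ν = ν' / s`. `∑ ν d ≤ κ` (`d i j ≤ κ hi i j` for all `i, j`), and for `b i j = (g i - g j) ^ 2`, an element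
of `Q`: `0 ≤ f b = ∑ ν' b - ∑_{F<0} |F| b ≤ ∑ ν' b - ∑ μ' b`.
-/

namespace Pool.Agent.Helper82.MK

open Finset

/-- the squared distance kernels -/
private def QQ (n : ℕ) : Set (Fin n × Fin n → ℝ) :=
  {K | ∃ (m : ℕ) (G : Fin m → Fin n → ℝ), ∀ p, K p = ∑ k, (G k p.1 - G k p.2) ^ 2}

private lemma QQ_zero (n : ℕ) : (0 : Fin n × Fin n → ℝ) ∈ QQ n :=
  ⟨0, fun _ _ => 0, fun p => by simp⟩

private lemma QQ_smul {n : ℕ} {K : Fin n × Fin n → ℝ} (h : K ∈ QQ n) {t : ℝ} (ht : 0 ≤ t) :
    t • K ∈ QQ n := by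
  obtain ⟨m, G, hG⟩ := h
  refine ⟨m, fun k i => Real.sqrt t * G k i, fun p => ?_⟩
  rw [Pi.smul_apply, smul_eq_mul, hG, Finset.mul_sum]
  refine Finset.sum_congr rfl fun k _ => ?_
  rw [← mul_sub, mul_pow, Real.sq_sqrt ht]

private lemma QQ_add {n : ℕ} {K K' : Fin n × Fin n → ℝ} (h : K ∈ QQ n) (h' : K' ∈ QQ n) :
    K + K' ∈ QQ n := by
  obtain ⟨m, G, hG⟩ := h
  obtain ⟨m', G', hG'⟩ := h'
  refine ⟨m + m', Fin.append G G', fun p => ?_⟩
  rw [Pi.add_apply, hG, hG', Fin.sum_univ_add]
  congr 1
  · refine Finset.sum_congr rfl fun k _ => ?_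
    rw [Fin.append_left]
  · refine Finset.sum_congr rfl fun k _ => ?_
    rw [Fin.append_right]

private lemma QQ_convex (n : ℕ) : Convex ℝ (QQ n) := by
  intro x hx y hy a b ha hb _
  exact QQ_add (QQ_smul hx ha) (QQ_smul hy hb)

theorem separation {n : ℕ} (d : Fin n → Fin n → ℝ) (hd0 : ∀ i, d i i = 0)
    (hd : ∀ i j, i ≠ j → 0 < d i j) (ε κ : ℝ) (hκ : 0 < κ) (hκε : κ < ε) :
    (∃ (m : ℕ) (G : Fin m → Fin n → ℝ), (∀ i j, ∑ k, (G k i - G k j) ^ 2 ≤ d i j / κ) ∧
      ∀ i j, ε ≤ d i j → 1 ≤ ∑ k, (G k i - G k j) ^ 2) ∨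
    (∃ μ ν : Fin n → Fin n → ℝ, (∀ i j, 0 ≤ μ i j) ∧ (∀ i j, 0 ≤ ν i j) ∧
      (∀ i j, d i j < ε → μ i j = 0) ∧ ∑ i, ∑ j, μ i j = 1 ∧ ∑ i, ∑ j, ν i j * d i j ≤ κ ∧
      ∀ g : Fin n → ℝ, ∑ i, ∑ j, μ i j * (g i - g j) ^ 2 ≤ ∑ i, ∑ j, ν i j * (g i - g j) ^ 2) := by
  classical
  set lo : Fin n × Fin n → ℝ := fun p => if ε ≤ d p.1 p.2 then 1 else -1 with hlo
  set hi : Fin n × Fin n → ℝ := fun p => if p.1 = p.2 then 2 else d p.1 p.2 / κ with hhi
  have hlh : ∀ p, lo p < hi p := by
    intro p
    simp only [hlo, hhi]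
    by_cases hp : p.1 = p.2
    · rw [if_pos hp]
      split_ifs <;> norm_num
    · rw [if_neg hp]
      have h1 := hd _ _ hp
      split_ifs with h2
      · rw [lt_div_iff₀ hκ]
        linarith
      · have : 0 < d p.1 p.2 / κ := div_pos h1 hκ
        linarith
  have hhi0 : ∀ p, 0 < hi p := by
    intro p
    simp only [hhi]
    split_ifs with hp
    · norm_num
    · exact div_pos (hd _ _ hp) hκ
  set O : Set (Fin n × Fin n → ℝ) := Set.pi Set.univ (fun p => Set.Ioo (lo p) (hi p)) with hO
  have hOo : IsOpen O := isOpen_set_pi Set.finite_univ fun p _ => isOpen_Ioo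
  have hOc : Convex ℝ O := convex_pi fun p _ => convex_Ioo _ _
  by_cases hdis : Disjoint O (QQ n)
  · right
    obtain ⟨f, u, hf1, hf2⟩ := geometric_hahn_banach_open hOc hOo (QQ_convex n) hdis
    have hu : u ≤ 0 := by
      have := hf2 0 (QQ_zero n)
      rwa [map_zero] at this
    have hfQ : ∀ b ∈ QQ n, 0 ≤ f b := by
      intro b hb
      by_contra hneg
      rw [not_le] at hneg
      have ht : 0 ≤ (u - 1) / f b := div_nonneg_of_nonpos (by linarith) hneg.le
      have h1 := hf2 _ (QQ_smul hb ht)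
      rw [map_smul, smul_eq_mul, div_mul_cancel₀ _ hneg.ne] at h1
      linarith
    set F : Fin n × Fin n → ℝ := fun p => f (fun q => if p = q then 1 else 0) with hF
    have hfF : ∀ K : Fin n × Fin n → ℝ, f K = ∑ p, F p * K p := by
      intro K
      have h1 := LinearMap.pi_apply_eq_sum_univ (f : (Fin n × Fin n → ℝ) →ₗ[ℝ] ℝ) K
      refine h1.trans (Finset.sum_congr rfl fun p _ => ?_)
      rw [smul_eq_mul, mul_comm]
      rfl
    set o : Fin n × Fin n → ℝ := fun p => (lo p + hi p) / 2 with ho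
    have hoO : o ∈ O := by
      intro p _
      have := hlh p
      constructor
      · simp only [ho]
        linarith
      · simp only [ho]
        linarith
    have hfo := hf1 o hoO
    set top : Fin n × Fin n → ℝ := fun p => if 0 ≤ F p then hi p else lo p with htop
    have htopO : top ∈ closure O := by
      rw [hO, closure_pi_set]
      intro p _
      change top p ∈ closure (Set.Ioo (lo p) (hi p))
      rw [closure_Ioo (hlh p).ne]
      simp only [htop]
      split_ifs
      · exact ⟨(hlh p).le, le_rfl⟩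
      · exact ⟨le_rfl, (hlh p).le⟩
    have hftop : f top ≤ u := by
      have hcl : IsClosed {K : Fin n × Fin n → ℝ | f K ≤ u} :=
        isClosed_le f.continuous continuous_const
      exact closure_minimal (fun a ha => (hf1 a ha).le) hcl htopO
    set ν' : Fin n × Fin n → ℝ := fun p => max (F p) 0 with hν'
    set μ' : Fin n × Fin n → ℝ := fun p => if ε ≤ d p.1 p.2 then max (-F p) 0 else 0 with hμ'
    set τ : Fin n × Fin n → ℝ := fun p => if ε ≤ d p.1 p.2 then 0 else max (-F p) 0 with hτ
    have hν0 : ∀ p, 0 ≤ ν' p := fun p => le_max_right _ _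
    have hμ0 : ∀ p, 0 ≤ μ' p := by
      intro p
      simp only [hμ']
      split_ifs
      · exact le_max_right _ _
      · exact le_rfl
    have hτ0 : ∀ p, 0 ≤ τ p := by
      intro p
      simp only [hτ]
      split_ifs
      · exact le_rfl
      · exact le_max_right _ _
    have hFs : ∀ p, F p = ν' p - μ' p - τ p := by
      intro p
      simp only [hν', hμ', hτ]
      rcases le_total 0 (F p) with h | h
      · rw [max_eq_left h, max_eq_right (by linarith)]
        split_ifs <;> ring
      · rw [max_eq_right h, max_eq_left (by linarith)]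
        split_ifs <;> ring
    have hterm : ∀ p, F p * top p = ν' p * hi p + τ p - μ' p := by
      intro p
      simp only [htop, hν', hμ', hτ, hlo]
      rcases le_or_gt 0 (F p) with h | h
      · rw [if_pos h, max_eq_left h, max_eq_right (by linarith)]
        split_ifs <;> ring
      · rw [if_neg (not_le.2 h), max_eq_right h.le, max_eq_left (by linarith)]
        split_ifs <;> ring
    have hsum : ∑ p, ν' p * hi p + ∑ p, τ p - ∑ p, μ' p ≤ u := by
      have h1 : f top = ∑ p, ν' p * hi p + ∑ p, τ p - ∑ p, μ' p := by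
        rw [hfF, ← Finset.sum_add_distrib, ← Finset.sum_sub_distrib]
        exact Finset.sum_congr rfl fun p _ => hterm p
      rw [← h1]
      exact hftop
    have hτs : 0 ≤ ∑ p, τ p := Finset.sum_nonneg fun p _ => hτ0 p
    have hνs : 0 ≤ ∑ p, ν' p * hi p :=
      Finset.sum_nonneg fun p _ => mul_nonneg (hν0 p) (hhi0 p).le
    set s : ℝ := ∑ p, μ' p with hs
    have hs0 : 0 < s := by
      by_contra hneg
      rw [not_lt] at hneg
      have hs' : s = 0 := le_antisymm hneg (Finset.sum_nonneg fun p _ => hμ0 p)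
      have h1 : ∑ p, ν' p * hi p = 0 := by linarith
      have h2 : ∑ p, τ p = 0 := by linarith
      have h3 := (Finset.sum_eq_zero_iff_of_nonneg fun p _ => hμ0 p).1 hs'
      have h4 := (Finset.sum_eq_zero_iff_of_nonneg fun p _ =>
        mul_nonneg (hν0 p) (hhi0 p).le).1 h1
      have h5 := (Finset.sum_eq_zero_iff_of_nonneg fun p _ => hτ0 p).1 h2
      have h6 : ∀ p, F p = 0 := by
        intro p
        have e1 := h3 p (Finset.mem_univ p)
        have e2 := h4 p (Finset.mem_univ p)
        have e3 := h5 p (Finset.mem_univ p)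
        have e4 : ν' p = 0 := by
          rcases mul_eq_zero.1 e2 with h | h
          · exact h
          · exact absurd h (hhi0 p).ne'
        rw [hFs, e4, e1, e3]
        ring
      have h7 : f o = 0 := by
        rw [hfF]
        exact Finset.sum_eq_zero fun p _ => by rw [h6, zero_mul]
      linarith
    refine ⟨fun i j => μ' (i, j) / s, fun i j => ν' (i, j) / s, fun i j =>
      div_nonneg (hμ0 _) hs0.le, fun i j => div_nonneg (hν0 _) hs0.le, ?_, ?_, ?_, ?_⟩
    · intro i j hij
      have : μ' (i, j) = 0 := by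
        simp only [hμ']
        rw [if_neg (not_le.2 hij)]
      change μ' (i, j) / s = 0
      rw [this, zero_div]
    · rw [← Fintype.sum_prod_type (f := fun p : Fin n × Fin n => μ' p / s), ← Finset.sum_div]
      exact div_self hs0.ne'
    · have h1 : ∀ p : Fin n × Fin n, ν' p / s * d p.1 p.2 ≤ ν' p * hi p * (κ / s) := by
        intro p
        have h2 : d p.1 p.2 ≤ κ * hi p := by
          simp only [hhi]
          split_ifs with hp
          · rw [hp, hd0]
            positivity
          · rw [mul_div_cancel₀ _ hκ.ne']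
        have h3 : ν' p / s * d p.1 p.2 ≤ ν' p / s * (κ * hi p) :=
          mul_le_mul_of_nonneg_left h2 (div_nonneg (hν0 p) hs0.le)
        refine h3.trans (le_of_eq ?_)
        ring
      rw [← Fintype.sum_prod_type (f := fun p : Fin n × Fin n => ν' p / s * d p.1 p.2)]
      refine (Finset.sum_le_sum fun p _ => h1 p).trans ?_
      rw [← Finset.sum_mul]
      have h4 : ∑ p, ν' p * hi p ≤ s := by linarith
      calc (∑ p, ν' p * hi p) * (κ / s) ≤ s * (κ / s) :=
            mul_le_mul_of_nonneg_right h4 (by positivity)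
        _ = κ := by field_simp
    · intro g
      have hb : (fun p : Fin n × Fin n => (g p.1 - g p.2) ^ 2) ∈ QQ n :=
        ⟨1, fun _ => g, fun p => by simp⟩
      have h1 := hfQ _ hb
      rw [hfF] at h1
      have h2 : ∑ p : Fin n × Fin n, F p * (g p.1 - g p.2) ^ 2 ≤
          ∑ p : Fin n × Fin n, (ν' p - μ' p) * (g p.1 - g p.2) ^ 2 := by
        refine Finset.sum_le_sum fun p _ => mul_le_mul_of_nonneg_right ?_ (sq_nonneg _)
        rw [hFs]
        linarith [hτ0 p]
      rw [← Fintype.sum_prod_type (f := fun p : Fin n × Fin n => μ' p / s * (g p.1 - g p.2) ^ 2),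
        ← Fintype.sum_prod_type (f := fun p : Fin n × Fin n => ν' p / s * (g p.1 - g p.2) ^ 2),
        ← sub_nonneg, ← Finset.sum_sub_distrib]
      have h3 : ∑ p : Fin n × Fin n, (ν' p / s * (g p.1 - g p.2) ^ 2 -
          μ' p / s * (g p.1 - g p.2) ^ 2) =
          (∑ p : Fin n × Fin n, (ν' p - μ' p) * (g p.1 - g p.2) ^ 2) / s := by
        rw [Finset.sum_div]
        refine Finset.sum_congr rfl fun p _ => ?_
        ring
      rw [h3]
      exact div_nonneg (h1.trans h2) hs0.le
  · left
    rw [Set.not_disjoint_iff] at hdis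
    obtain ⟨K, hKO, m, G, hG⟩ := hdis
    refine ⟨m, G, fun i j => ?_, fun i j hij => ?_⟩
    · by_cases hij : i = j
      · subst hij
        simp [hd0]
      · have h1 := (hKO (i, j) (Set.mem_univ _)).2
        rw [hG] at h1
        simp only [hhi] at h1
        rw [if_neg hij] at h1
        exact h1.le
    · have h1 := (hKO (i, j) (Set.mem_univ _)).1
      rw [hG] at h1
      simp only [hlo] at h1
      rw [if_pos hij] at h1
      exact h1.le

end Pool.Agent.Helper82.MK
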