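import Pool.Agent.Helper82.MK.NoDual
import Pool.Agent.Helper82.MK.Sep
import Pool.Agent.Helper82.MK.Cpt

/-!
# Block MK-FIN: the kernel at one scale

PROOF. `κ` from `no_dual h hX ε hε`; `compactness` with `o = 0`, `u x y = ‖x - y‖ / κ`, `far x y = (ε ≤ ‖x - y‖)`,
`b = 1 / κ`. `hfin`: for a finite set `S` of points of the ball let `e : Fin n ≃ S` (`S.equivFin`), `z i = e i`, an injective family in the ball;
`separation` with `d i j = ‖z i - z j‖`; the second alternative is excluded by `no_dual`; in the first one extend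
the functions `G k` to the ball (value `0` outside `S`).
-/

universe u

namespace Pool.Agent.Helper82.MK

open Finset

theorem exists_kernel {X : Type u} [NormedAddCommGroup X] [NormedSpace ℝ X] {N : X → ℝ}
    {c C : ℝ} (h : UCN X N c C) (hX : MCurved X) (ε : ℝ) (hε : 0 < ε) :
    ∃ κ : ℝ, 0 < κ ∧ ∃ K : Metric.closedBall (0 : X) 1 → Metric.closedBall (0 : X) 1 → ℝ,
      (∀ x y, K x y = K y x) ∧
      (∀ (T : Finset (Metric.closedBall (0 : X) 1)) (a : Metric.closedBall (0 : X) 1 → ℝ),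
        0 ≤ ∑ x ∈ T, ∑ y ∈ T, a x * a y * K x y) ∧
      (∀ x y, |K x y| ≤ 1 / κ) ∧ (∀ x y, K x x + K y y - 2 * K x y ≤ ‖(x : X) - (y : X)‖ / κ) ∧
      ∀ x y : Metric.closedBall (0 : X) 1, ε ≤ ‖(x : X) - (y : X)‖ → 1 ≤ K x x + K y y - 2 * K x y := by
  classical
  obtain ⟨κ, hκ, hκε, hno⟩ := no_dual h hX ε hε
  refine ⟨κ, hκ, ?_⟩
  refine compactness (⟨0, by simp⟩ : Metric.closedBall (0 : X) 1)
    (fun x y => ‖(x : X) - (y : X)‖ / κ) (fun x y => ε ≤ ‖(x : X) - (y : X)‖) (1 / κ) ?_ ?_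
  · intro x
    have h1 : ‖(x : X)‖ ≤ 1 := by
      have := x.2
      rwa [mem_closedBall_zero_iff] at this
    have h2 : ‖(x : X) - (((⟨0, by simp⟩ : Metric.closedBall (0 : X) 1)) : X)‖ ≤ 1 := by
      change ‖(x : X) - 0‖ ≤ 1
      rwa [sub_zero]
    exact div_le_div_of_nonneg_right h2 hκ.le
  · intro S
    let e : Fin S.card ≃ S := S.equivFin.symm
    let z : Fin S.card → X := fun i => ((e i : Metric.closedBall (0 : X) 1) : X)
    have hz1 : ∀ i, ‖z i‖ ≤ 1 := by
      intro i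
      have := (e i : Metric.closedBall (0 : X) 1).2
      rwa [mem_closedBall_zero_iff] at this
    have hzinj : ∀ i j, i ≠ j → 0 < ‖z i - z j‖ := by
      intro i j hij
      rw [norm_pos_iff, sub_ne_zero]
      intro h0
      apply hij
      apply e.injective
      apply Subtype.ext
      apply Subtype.ext
      exact h0
    rcases separation (fun i j => ‖z i - z j‖) (fun i => by simp) hzinj ε κ hκ hκε with
      ⟨m, G, hG1, hG2⟩ | hdual
    · refine ⟨m, fun k x => if hx : x ∈ S then G k (e.symm ⟨x, hx⟩) else 0, ?_⟩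
      intro x hx y hy
      have e1 : ∀ k : Fin m, (if hx : x ∈ S then G k (e.symm ⟨x, hx⟩) else 0) =
          G k (e.symm ⟨x, hx⟩) := fun k => dif_pos hx
      have e2 : ∀ k : Fin m, (if hy : y ∈ S then G k (e.symm ⟨y, hy⟩) else 0) =
          G k (e.symm ⟨y, hy⟩) := fun k => dif_pos hy
      simp only [e1, e2]
      have zx : z (e.symm ⟨x, hx⟩) = (x : X) := by
        change ((e (e.symm ⟨x, hx⟩) : Metric.closedBall (0 : X) 1) : X) = _
        rw [Equiv.apply_symm_apply]
      have zy : z (e.symm ⟨y, hy⟩) = (y : X) := by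
        change ((e (e.symm ⟨y, hy⟩) : Metric.closedBall (0 : X) 1) : X) = _
        rw [Equiv.apply_symm_apply]
      have h1 := hG1 (e.symm ⟨x, hx⟩) (e.symm ⟨y, hy⟩)
      have h2 := hG2 (e.symm ⟨x, hx⟩) (e.symm ⟨y, hy⟩)
      rw [zx, zy] at h1 h2
      exact ⟨h1, h2⟩
    · exact (hno S.card z hz1 hdual).elim

end Pool.Agent.Helper82.MK
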