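import Mathlib

/-!
# Block MK-GNS: the Hilbert space of a positive definite kernel (Mathlib only)

PROOF. Use `RKHS.OfKernel` (`Mathlib.Analysis.InnerProductSpace.Reproducing`) with `𝕜 = V = ℝ` and the matrix
`x y ↦ K x y • id`, `F x = kerFun x 1`, `kernel_ofKernel`, `kernel_inner`; or do it by hand: the pre-inner product
`∑∑ a x b y K x y` on `B →₀ ℝ` (`PreInnerProductSpace.Core`) and the completion. The Hilbert space must be in the universe of
`B`.
-/

universe u

namespace Pool.Agent.Helper82.MK

open Finset
open scoped InnerProductSpace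

theorem gns {B : Type u} (K : B → B → ℝ) (hsym : ∀ x y, K x y = K y x)
    (hpos : ∀ (T : Finset B) (a : B → ℝ), 0 ≤ ∑ x ∈ T, ∑ y ∈ T, a x * a y * K x y) :
    ∃ (H : Type u) (_ : NormedAddCommGroup H) (_ : InnerProductSpace ℝ H) (_ : CompleteSpace H)
      (F : B → H), ∀ x y, ⟪F x, F y⟫_ℝ = K x y := by
  let K' : Matrix B B (ℝ →L[ℝ] ℝ) := Matrix.of fun x y => K x y • ContinuousLinearMap.id ℝ ℝ
  have hap : ∀ x y (w : ℝ), K' x y w = K x y * w := fun x y w => rfl
  have hK' : K'.PosSemidef := by
    have htf := (RKHS.posSemidef_tfae (K := K')).out 0 2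
    refine htf.mpr ⟨?_, fun vv => ?_⟩
    · refine Matrix.IsHermitian.ext fun x y => ?_
      refine ContinuousLinearMap.ext fun w => ?_
      refine ext_inner_right ℝ fun v => ?_
      rw [ContinuousLinearMap.star_eq_adjoint, ContinuousLinearMap.adjoint_inner_left, hap, hap,
        hsym x y]
      simp only [RCLike.inner_apply, conj_trivial]
      ring
    · have h1 := hpos vv.support vv
      have h2 : (vv.sum fun x w => vv.sum fun x' w' => ⟪K' x' x w, w'⟫_ℝ) =
          ∑ x ∈ vv.support, ∑ y ∈ vv.support, vv x * vv y * K x y := by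
        rw [Finsupp.sum]
        refine Finset.sum_congr rfl fun x _ => ?_
        rw [Finsupp.sum]
        refine Finset.sum_congr rfl fun y _ => ?_
        rw [hap, hsym y x]
        simp only [RCLike.inner_apply, conj_trivial]
        ring
      rw [h2]
      exact h1
  have _ : Fact K'.PosSemidef := ⟨hK'⟩
  refine ⟨RKHS.OfKernel K', inferInstance, inferInstance, inferInstance,
    fun x => RKHS.kerFun (RKHS.OfKernel K') x 1, fun x y => ?_⟩
  rw [← RKHS.kernel_inner, RKHS.OfKernel.kernel_ofKernel, hap, hsym y x]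
  simp only [RCLike.inner_apply, conj_trivial]
  ring

end Pool.Agent.Helper82.MK
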