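import Mathlib

/-!
# Block MK-KSUM: a weighted sum of kernels (Mathlib only)

PROOF. `K x y = ∑' r, κ r * (1 / 2) ^ r * K' r x y`; the terms are bounded by `(1 / 2) ^ r` (`hb`), so the series converges absolutely
(`Summable.of_norm_bounded`, geometric series). Symmetry and positivity: exchange finite sums and `∑'`
(`Summable.tsum_finsetSum`, `tsum_nonneg`). `K x x + K y y - 2 K x y = ∑' κ r (1 / 2) ^ r (K' x x + K' y y - 2 K' x y) ≤ ∑' (1/2)^r ρ x y = 2 ρ x y`,
and it is at least its `r`-th term (all terms are nonnegative: take `T = {x, y}` and `a x = 1`, `a y = -1` in `hpos`; the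
case `x = y` is trivial).
-/

namespace Pool.Agent.Helper82.MK

open Finset

theorem kernel_sum {B : Type*} (ρ : B → B → ℝ) (far : ℕ → B → B → Prop) (κ : ℕ → ℝ)
    (hκ : ∀ r, 0 < κ r) (K' : ℕ → B → B → ℝ) (hsym : ∀ r x y, K' r x y = K' r y x)
    (hpos : ∀ r (T : Finset B) (a : B → ℝ), 0 ≤ ∑ x ∈ T, ∑ y ∈ T, a x * a y * K' r x y)
    (hb : ∀ r x y, |K' r x y| ≤ 1 / κ r)
    (hρ : ∀ r x y, K' r x x + K' r y y - 2 * K' r x y ≤ ρ x y / κ r)
    (hfar : ∀ r x y, far r x y → 1 ≤ K' r x x + K' r y y - 2 * K' r x y) :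
    ∃ K : B → B → ℝ, (∀ x y, K x y = K y x) ∧
      (∀ (T : Finset B) (a : B → ℝ), 0 ≤ ∑ x ∈ T, ∑ y ∈ T, a x * a y * K x y) ∧
      (∀ x y, K x x + K y y - 2 * K x y ≤ 2 * ρ x y) ∧
      ∀ r x y, far r x y → κ r * (1 / 2) ^ r ≤ K x x + K y y - 2 * K x y := by
  classical
  have h2 : HasSum (fun r : ℕ => ((1 : ℝ) / 2) ^ r) 2 := hasSum_geometric_two
  have hsum : ∀ x y, Summable (fun r => κ r * (1 / 2) ^ r * K' r x y) := by
    intro x y
    refine Summable.of_norm_bounded h2.summable (fun r => ?_)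
    have h1 : (0 : ℝ) < (1 / 2) ^ r := by positivity
    rw [Real.norm_eq_abs, abs_mul, abs_mul, abs_of_pos (hκ r), abs_of_pos h1]
    have h3 : κ r * (1 / 2) ^ r * |K' r x y| ≤ κ r * (1 / 2) ^ r * (1 / κ r) :=
      mul_le_mul_of_nonneg_left (hb r x y) (mul_pos (hκ r) h1).le
    have h4 : κ r * (1 / 2) ^ r * (1 / κ r) = (1 / 2 : ℝ) ^ r := by
      have := (hκ r).ne'
      field_simp
    rw [h4] at h3
    exact h3
  obtain ⟨K, hK⟩ : ∃ K : B → B → ℝ, ∀ x y,
      HasSum (fun r => κ r * (1 / 2) ^ r * K' r x y) (K x y) :=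
    ⟨fun x y => ∑' r, κ r * (1 / 2) ^ r * K' r x y, fun x y => (hsum x y).hasSum⟩
  have hdiff : ∀ x y, HasSum
      (fun r => κ r * (1 / 2) ^ r * (K' r x x + K' r y y - 2 * K' r x y))
      (K x x + K y y - 2 * K x y) := by
    intro x y
    have h3 := ((hK x x).add (hK y y)).sub ((hK x y).mul_left 2)
    refine h3.congr_fun ?_
    intro r
    ring
  have hnn : ∀ r x y, 0 ≤ K' r x x + K' r y y - 2 * K' r x y := by
    intro r x y
    by_cases hxy : x = y
    · subst hxy
      apply le_of_eq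
      ring
    · have h3 := hpos r {x, y} (fun z => if z = x then 1 else -1)
      rw [Finset.sum_pair hxy, Finset.sum_pair hxy, Finset.sum_pair hxy] at h3
      have hyx : ¬ y = x := fun h => hxy h.symm
      rw [if_pos rfl, if_neg hyx, hsym r y x] at h3
      linarith
  have hw : ∀ r, 0 < κ r * (1 / 2) ^ r := fun r => mul_pos (hκ r) (by positivity)
  refine ⟨K, ?_, ?_, ?_, ?_⟩
  · intro x y
    refine (hK x y).unique ?_
    have h3 := hK y x
    simpa only [hsym _ y x] using h3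
  · intro T a
    have h3 : HasSum (fun r => ∑ x ∈ T, ∑ y ∈ T, a x * a y * (κ r * (1 / 2) ^ r * K' r x y))
        (∑ x ∈ T, ∑ y ∈ T, a x * a y * K x y) :=
      hasSum_sum fun x _ => hasSum_sum fun y _ => (hK x y).mul_left _
    refine h3.nonneg fun r => ?_
    have h4 : ∑ x ∈ T, ∑ y ∈ T, a x * a y * (κ r * (1 / 2) ^ r * K' r x y) =
        κ r * (1 / 2) ^ r * ∑ x ∈ T, ∑ y ∈ T, a x * a y * K' r x y := by
      rw [Finset.mul_sum]
      refine Finset.sum_congr rfl fun x _ => ?_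
      rw [Finset.mul_sum]
      refine Finset.sum_congr rfl fun y _ => ?_
      ring
    rw [h4]
    exact mul_nonneg (hw r).le (hpos r T a)
  · intro x y
    have h3 := h2.mul_right (ρ x y)
    refine hasSum_le (fun r => ?_) (hdiff x y) h3
    have h4 := mul_le_mul_of_nonneg_left (hρ r x y) (hw r).le
    have h5 : κ r * (1 / 2) ^ r * (ρ x y / κ r) = (1 / 2 : ℝ) ^ r * ρ x y := by
      have := (hκ r).ne'
      field_simp
    rw [h5] at h4
    exact h4
  · intro r x y h
    have h3 := le_hasSum (hdiff x y) r (fun j _ => mul_nonneg (hw j).le (hnn j x y))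
    refine le_trans ?_ h3
    have h4 := mul_le_mul_of_nonneg_left (hfar r x y h) (hw r).le
    rwa [mul_one] at h4

end Pool.Agent.Helper82.MK
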