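import Pool.Agent.Helper82.MK.FinEmb
import Pool.Agent.Helper82.MK.KSum
import Pool.Agent.Helper82.MK.GNS
import Pool.Agent.Helper82.MK.Emb

/-!
# Block MK-FWD: the Markov criterion implies the embedding (assembly)

PROOF. `κ r`, `K' r` from `exists_kernel` for `ε = 1 / (r + 1)` (`choose`); `kernel_sum` with `ρ x y = ‖x - y‖` and
`far r x y = (1 / (r + 1) ≤ ‖x - y‖)`; `gns`; `‖F x - F y‖ ^ 2 = K x x + K y y - 2 K x y`; `emb_of_moduli` with
`θ = κ r * (1 / 2) ^ r`.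
-/

universe u

namespace Pool.Agent.Helper82.MK

open Finset

theorem exists_embedding {X : Type u} [NormedAddCommGroup X] [NormedSpace ℝ X] {N : X → ℝ}
    {c C : ℝ} (h : UCN X N c C) (hX : MCurved X) :
    ∃ (H : Type u) (_ : NormedAddCommGroup H) (_ : InnerProductSpace ℝ H) (_ : CompleteSpace H)
      (F : Metric.closedBall (0 : X) 1 → H), IsUniformEmbedding F ∧
        ∀ x y, ‖F x - F y‖ ^ 2 ≤ 2 * ‖(x : X) - (y : X)‖ := by
  classical
  have hk := fun r : ℕ => exists_kernel h hX (1 / ((r : ℝ) + 1)) (by positivity)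
  choose κ hκ K' hsym hpos hb hρ hfar using hk
  obtain ⟨K, s1, s2, s3, s4⟩ := kernel_sum (B := Metric.closedBall (0 : X) 1)
    (fun x y => ‖(x : X) - (y : X)‖) (fun r x y => 1 / ((r : ℝ) + 1) ≤ ‖(x : X) - (y : X)‖)
    κ hκ K' hsym hpos hb hρ hfar
  obtain ⟨H, i1, i2, i3, F, hF⟩ := gns K s1 s2
  have hn : ∀ x y, ‖F x - F y‖ ^ 2 = K x x + K y y - 2 * K x y := by
    intro x y
    rw [norm_sub_sq_real, ← real_inner_self_eq_norm_sq, ← real_inner_self_eq_norm_sq, hF, hF, hF]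
    ring
  refine ⟨H, i1, i2, i3, F, emb_of_moduli F (fun x y => ?_) (fun r => ⟨κ r * (1 / 2) ^ r, ?_,
    fun x y hxy => ?_⟩), fun x y => ?_⟩
  · rw [hn]
    exact s3 x y
  · have := hκ r
    positivity
  · rw [hn]
    exact s4 r x y hxy
  · rw [hn]
    exact s3 x y

end Pool.Agent.Helper82.MK
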