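import Pool.Agent.Helper82.MK.Dual

/-!
# Block MK-GAP: the gap of a uniformly convex norm on bounded sets

PROOF of `gap`. Put `ε1 = c ε` (so `N (x - y) ≥ ε1`), `a = N x`, `b = N y`; by symmetry let `b ≤ a`. Then
`a + b ≥ N (x - y) ≥ ε1` gives `a ≥ ε1 / 2`, and `a ≤ C`. Let `δ` be the number of `h.uc (ε1 / C)`. The vectors
`x / a`, `y / a` have norm `≤ 1` and `N (x / a - y / a) ≥ ε1 / a ≥ ε1 / C`, so `N (x + y) ≤ (2 - 2 δ) a` and
`a + b - N (x + y) ≥ b - a + 2 δ a`. If `a - b ≤ δ a` then `a + b - N (x + y) ≥ δ a`, and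
`(a + b) (a + b - N (x + y)) ≥ δ a ^ 2 ≥ δ ε1 ^ 2 / 4`; otherwise `(a - b) ^ 2 ≥ δ ^ 2 a ^ 2 ≥ δ ^ 2 ε1 ^ 2 / 4`. All
terms are nonnegative, so `γ = min δ (δ ^ 2) * ε1 ^ 2 / 4` works.
`mid_gap`: with `s = N (x + y) ≤ a + b`, `N ((1/2) • (x + y)) = s / 2`,
`(a ^ 2 + b ^ 2) / 2 - s ^ 2 / 4 = ((a - b) ^ 2 + (a + b) ^ 2 - s ^ 2) / 4 ≥ ((a - b) ^ 2 + (a + b) (a + b - s)) / 4`.
-/

universe u

namespace Pool.Agent.Helper82.MK

open Finset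

variable {X : Type u} [NormedAddCommGroup X] [NormedSpace ℝ X] {N : X → ℝ} {c C : ℝ}

theorem gap_nonneg (h : UCN X N c C) (x y : X) :
    0 ≤ (N x - N y) ^ 2 + (N x + N y) * (N x + N y - N (x + y)) :=
  add_nonneg (sq_nonneg _) (mul_nonneg (add_nonneg (h.nonneg x) (h.nonneg y))
    (sub_nonneg.2 (h.add x y)))

private theorem gap_aux46 (h : UCN X N c C) (ε : ℝ) (hε : 0 < ε) (δ : ℝ) (hδ : 0 < δ)
    (huc : ∀ x y : X, N x ≤ 1 → N y ≤ 1 → c * ε / C ≤ N (x - y) → N (x + y) ≤ 2 - 2 * δ)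
    (x y : X) (hx : ‖x‖ ≤ 1) (hxy : ε ≤ ‖x - y‖) (hba : N y ≤ N x) :
    min δ (δ ^ 2) * ((c * ε) ^ 2 / 4) ≤
      (N x - N y) ^ 2 + (N x + N y) * (N x + N y - N (x + y)) := by
  have hc := h.c_pos
  have hC := h.C_pos
  have hb := h.nonneg y
  have he1 : 0 < c * ε := mul_pos hc hε
  have hN1 : c * ε ≤ N (x - y) := (mul_le_mul_of_nonneg_left hxy hc.le).trans (h.lower _)
  have hN2 : N (x - y) ≤ N x + N y := by
    have h1 := h.add x (-y)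
    rw [h.neg, ← sub_eq_add_neg] at h1
    exact h1
  have ha : c * ε / 2 ≤ N x := by linarith
  have ha0 : 0 < N x := by linarith
  have haC : N x ≤ C := (h.upper x).trans (by nlinarith)
  have hinv : 0 < (N x)⁻¹ := inv_pos.2 ha0
  have h1 : N ((N x)⁻¹ • x) ≤ 1 := by
    rw [h.smul, abs_of_pos hinv, inv_mul_cancel₀ ha0.ne']
  have h2 : N ((N x)⁻¹ • y) ≤ 1 := by
    rw [h.smul, abs_of_pos hinv, inv_mul_le_iff₀ ha0, mul_one]
    exact hba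
  have h3 : c * ε / C ≤ N ((N x)⁻¹ • x - (N x)⁻¹ • y) := by
    rw [← smul_sub, h.smul, abs_of_pos hinv, div_eq_inv_mul]
    exact mul_le_mul (inv_anti₀ ha0 haC) hN1 he1.le hinv.le
  have h4 := huc _ _ h1 h2 h3
  rw [← smul_add, h.smul, abs_of_pos hinv, inv_mul_le_iff₀ ha0] at h4
  have h5 := h.add x y
  have hsq : (c * ε) ^ 2 / 4 ≤ N x ^ 2 := by nlinarith
  have hm0 : 0 ≤ min δ (δ ^ 2) := le_min hδ.le (sq_nonneg δ)
  have hm1 : min δ (δ ^ 2) * ((c * ε) ^ 2 / 4) ≤ min δ (δ ^ 2) * N x ^ 2 :=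
    mul_le_mul_of_nonneg_left hsq hm0
  refine hm1.trans ?_
  rcases le_or_gt (N x - N y) (δ * N x) with hcase | hcase
  · have h6 : δ * N x ≤ N x + N y - N (x + y) := by nlinarith
    have h7 : min δ (δ ^ 2) * N x ^ 2 ≤ δ * N x ^ 2 :=
      mul_le_mul_of_nonneg_right (min_le_left _ _) (sq_nonneg _)
    have h8 : N x * (δ * N x) ≤ (N x + N y) * (N x + N y - N (x + y)) :=
      mul_le_mul (by linarith) h6 (mul_pos hδ ha0).le (by linarith)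
    nlinarith [sq_nonneg (N x - N y)]
  · have h7 : min δ (δ ^ 2) * N x ^ 2 ≤ δ ^ 2 * N x ^ 2 :=
      mul_le_mul_of_nonneg_right (min_le_right _ _) (sq_nonneg _)
    have h8 : (δ * N x) ^ 2 ≤ (N x - N y) ^ 2 :=
      pow_le_pow_left₀ (mul_pos hδ ha0).le hcase.le 2
    have h9 : 0 ≤ (N x + N y) * (N x + N y - N (x + y)) :=
      mul_nonneg (by linarith) (by linarith)
    nlinarith

theorem gap (h : UCN X N c C) (ε : ℝ) (hε : 0 < ε) :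
    ∃ γ : ℝ, 0 < γ ∧ ∀ x y : X, ‖x‖ ≤ 1 → ‖y‖ ≤ 1 → ε ≤ ‖x - y‖ →
      γ ≤ (N x - N y) ^ 2 + (N x + N y) * (N x + N y - N (x + y)) := by
  have he1 : 0 < c * ε := mul_pos h.c_pos hε
  obtain ⟨δ, hδ, huc⟩ := h.uc (c * ε / C) (div_pos he1 h.C_pos)
  refine ⟨min δ (δ ^ 2) * ((c * ε) ^ 2 / 4),
    mul_pos (lt_min hδ (pow_pos hδ 2)) (by positivity), fun x y hx hy hxy => ?_⟩
  rcases le_total (N y) (N x) with hab | hab
  · exact gap_aux46 h ε hε δ hδ huc x y hx hxy hab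
  · have h1 := gap_aux46 h ε hε δ hδ huc y x hy (by rwa [norm_sub_rev]) hab
    rw [add_comm y x] at h1
    have e : (N x - N y) ^ 2 + (N x + N y) * (N x + N y - N (x + y)) =
        (N y - N x) ^ 2 + (N y + N x) * (N y + N x - N (x + y)) := by ring
    rw [e]
    exact h1

private theorem half46 (h : UCN X N c C) (x y : X) :
    (N x ^ 2 + N y ^ 2) / 2 - N ((1 / 2 : ℝ) • (x + y)) ^ 2 =
      ((N x - N y) ^ 2 + (N x + N y) ^ 2 - N (x + y) ^ 2) / 4 := by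
  rw [h.smul, abs_of_pos (by norm_num : (0 : ℝ) < 1 / 2)]
  ring

private theorem half_le46 (h : UCN X N c C) (x y : X) :
    ((N x - N y) ^ 2 + (N x + N y) * (N x + N y - N (x + y))) / 4 ≤
      (N x ^ 2 + N y ^ 2) / 2 - N ((1 / 2 : ℝ) • (x + y)) ^ 2 := by
  rw [half46 h]
  have h1 := h.add x y
  have h2 := h.nonneg (x + y)
  have h3 : 0 ≤ N (x + y) * (N x + N y - N (x + y)) := mul_nonneg h2 (by linarith)
  nlinarith

theorem mid_gap_nonneg (h : UCN X N c C) (x y : X) :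
    0 ≤ (N x ^ 2 + N y ^ 2) / 2 - N ((1 / 2 : ℝ) • (x + y)) ^ 2 :=
  (div_nonneg (gap_nonneg h x y) (by norm_num)).trans (half_le46 h x y)

theorem mid_gap (h : UCN X N c C) (ε : ℝ) (hε : 0 < ε) :
    ∃ γ : ℝ, 0 < γ ∧ ∀ x y : X, ‖x‖ ≤ 1 → ‖y‖ ≤ 1 → ε ≤ ‖x - y‖ →
      γ ≤ (N x ^ 2 + N y ^ 2) / 2 - N ((1 / 2 : ℝ) • (x + y)) ^ 2 := by
  obtain ⟨γ, hγ, hg⟩ := gap h ε hε
  exact ⟨γ / 4, by linarith, fun x y hx hy hxy =>
    (div_le_div_of_nonneg_right (hg x y hx hy hxy) (by norm_num)).trans (half_le46 h x y)⟩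

/-- Jensen's inequality for `N ^ 2`: `N (∑ p v) ≤ ∑ p N(v)` and `convexOn_pow`. -/
theorem UCN.jensen (h : UCN X N c C) {n : ℕ} (p : Fin n → ℝ) (hp : ∀ i, 0 ≤ p i)
    (hp1 : ∑ i, p i = 1) (v : Fin n → X) :
    N (∑ i, p i • v i) ^ 2 ≤ ∑ i, p i * N (v i) ^ 2 := by
  have h1 : N (∑ i, p i • v i) ≤ ∑ i, p i * N (v i) := by
    refine (h.sum_le Finset.univ _).trans (le_of_eq (Finset.sum_congr rfl fun i _ => ?_))
    rw [h.smul, abs_of_nonneg (hp i)]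
  have h2 : (∑ i, p i * N (v i)) ^ 2 ≤ ∑ i, p i * N (v i) ^ 2 := by
    have h3 := (convexOn_pow (𝕜 := ℝ) 2).map_sum_le (t := Finset.univ) (w := p)
      (p := fun i => N (v i)) (fun i _ => hp i) hp1 (fun i _ => h.nonneg (v i))
    simpa [smul_eq_mul] using h3
  exact (pow_le_pow_left₀ (h.nonneg _) h1 2).trans h2

end Pool.Agent.Helper82.MK
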