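import Pool.Agent.Helper82.MK.Res

/-!
# Block MK-ITER: powers of the resolvent

PROOF. Let `t = s / N`, `R` from `exists_resolvent` with this `t`, `L = Lap w k`.
(a) For real `g` put `h_m = act (R ^ m) g`. `h_m = h_(m+1) + t L h_(m+1)` (as `(1 + t L) R = 1`), so
`∑ w h_m² = ∑ w h_(m+1)² + 2 t ∑ w h_(m+1) (L h_(m+1)) + t² ∑ w (L h_(m+1))² ≥ ∑ w h_(m+1)² + t En k h_(m+1)`
(`∑ w_i h_i (L h)_i = ∑_ij k_ij h_i (h_i - h_j) = En k h / 2`, symmetry of `k`). The energy `En k h_m` decreases in `m`: with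
`h = h_(m+1)`, `En k h_m = 2 ⟨L h_m, h_m⟩ = 2 ⟨L h + t L² h, h + t L h⟩ = 2 ⟨L h, h⟩ + 4 t ⟨L h, L h⟩ + 2 t² ⟨L (L h), L h⟩ ≥ En k h` (`L` is
self-adjoint for the weights and `⟨L u, u⟩ ≥ 0`). Summing over `m < N`: `N t En k h_N ≤ ∑ w g²`.
(b) `f - R^N f = ∑_(m<N) (h_m - h_(m+1)) = ∑ t L h_(m+1)`, and `L h_(m+1) = R^(m+1) L f` (`R` commutes with `L`, as
`t L = (1 + t L) - 1` for `t ≠ 0`; for `t = 0` everything is `0`); `R^(m+1)` is a contraction of `L_1` (`Mk.norm_l1`, `Mk.pow`), and
`∑ w_i ‖(L f)_i‖ ≤ ∑_ij k_ij ‖f_i - f_j‖`.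
-/

universe u

namespace Pool.Agent.Helper82.MK

open Finset

variable {n : ℕ}

/-- the energy form -/
private noncomputable def B6 (k : Fin n → Fin n → ℝ) (u v : Fin n → ℝ) : ℝ :=
  ∑ i, ∑ j, k i j * ((u i - u j) * (v i - v j))

private lemma B6_self (k : Fin n → Fin n → ℝ) (u : Fin n → ℝ) : B6 k u u = En k u := by
  unfold B6 En
  refine Finset.sum_congr rfl fun i _ => Finset.sum_congr rfl fun j _ => ?_
  rw [Real.norm_eq_abs, sq_abs]
  ring

private lemma B6_comm (k : Fin n → Fin n → ℝ) (u v : Fin n → ℝ) : B6 k u v = B6 k v u := by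
  unfold B6
  refine Finset.sum_congr rfl fun i _ => Finset.sum_congr rfl fun j _ => ?_
  ring

private lemma B6_nonneg {k : Fin n → Fin n → ℝ} (hk0 : ∀ i j, 0 ≤ k i j) (u : Fin n → ℝ) :
    0 ≤ B6 k u u := by
  unfold B6
  exact Finset.sum_nonneg fun i _ => Finset.sum_nonneg fun j _ =>
    mul_nonneg (hk0 i j) (mul_self_nonneg _)

private lemma B6_add (k : Fin n → Fin n → ℝ) (u v : Fin n → ℝ) (t : ℝ) :
    B6 k (fun i => u i + t * v i) (fun i => u i + t * v i) =
      B6 k u u + 2 * t * B6 k u v + t ^ 2 * B6 k v v := by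
  unfold B6
  simp only [Finset.mul_sum]
  rw [← Finset.sum_add_distrib, ← Finset.sum_add_distrib]
  refine Finset.sum_congr rfl fun i _ => ?_
  rw [← Finset.sum_add_distrib, ← Finset.sum_add_distrib]
  refine Finset.sum_congr rfl fun j _ => ?_
  ring

private lemma B6_lap {w : Fin n → ℝ} (hw : ∀ i, 0 < w i) {k : Fin n → Fin n → ℝ}
    (hks : ∀ i j, k i j = k j i) (u v : Fin n → ℝ) :
    2 * ∑ i, w i * (u i * act (Lap w k) v i) = B6 k u v := by
  have h1 : ∑ i, w i * (u i * act (Lap w k) v i) = ∑ i, ∑ j, k i j * (u i * (v i - v j)) := by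
    refine Finset.sum_congr rfl fun i _ => ?_
    rw [act_lap, smul_eq_mul]
    have h2 : w i * (u i * ((w i)⁻¹ * ∑ j, k i j • (v i - v j))) =
        u i * ∑ j, k i j • (v i - v j) := by
      have h3 := (hw i).ne'
      field_simp
    rw [h2, Finset.mul_sum]
    refine Finset.sum_congr rfl fun j _ => ?_
    rw [smul_eq_mul]
    ring
  have h2 : ∑ i, ∑ j, k i j * (u i * (v i - v j)) = ∑ i, ∑ j, k i j * (u j * (v j - v i)) := by
    rw [Finset.sum_comm]
    refine Finset.sum_congr rfl fun i _ => Finset.sum_congr rfl fun j _ => ?_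
    rw [hks j i]
  rw [h1, two_mul]
  conv_lhs => rw [h2]
  conv_lhs => lhs; rw [← h2]
  unfold B6
  rw [← Finset.sum_add_distrib]
  refine Finset.sum_congr rfl fun i _ => ?_
  rw [← Finset.sum_add_distrib]
  refine Finset.sum_congr rfl fun j _ => ?_
  ring

theorem exists_iter {w : Fin n → ℝ} (hw : ∀ i, 0 < w i) {k : Fin n → Fin n → ℝ}
    (hk0 : ∀ i j, 0 ≤ k i j) (hks : ∀ i j, k i j = k j i) (s : ℝ) (hs : 0 ≤ s) (N : ℕ)
    (hN : 0 < N) :
    ∃ P : Matrix (Fin n) (Fin n) ℝ, Mk w P ∧
      (∀ g : Fin n → ℝ, s * En k (act (P ^ N) g) ≤ ∑ i, w i * (g i) ^ 2) ∧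
      ∀ (E : Type u) [NormedAddCommGroup E] [NormedSpace ℝ E] (f : Fin n → E),
        ∑ i, w i * ‖f i - act (P ^ N) f i‖ ≤ s * ∑ i, ∑ j, k i j * ‖f i - f j‖ := by
  have hN' : (0 : ℝ) < N := by exact_mod_cast hN
  obtain ⟨t, ht⟩ : ∃ t : ℝ, t = s / N := ⟨_, rfl⟩
  have ht0 : 0 ≤ t := by rw [ht]; positivity
  have htN : t * N = s := by rw [ht]; field_simp
  obtain ⟨R, hR, hR1, hR2⟩ := exists_resolvent hw hk0 hks t ht0
  refine ⟨R, hR, ?_, ?_⟩
  · intro g
    -- one step
    have hstep : ∀ g : Fin n → ℝ, En k (act R g) ≤ En k g ∧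
        t * En k (act R g) ≤ ∑ i, w i * (g i) ^ 2 - ∑ i, w i * (act R g i) ^ 2 := by
      intro g
      obtain ⟨h, hh⟩ : ∃ h, h = act R g := ⟨_, rfl⟩
      obtain ⟨l, hl⟩ : ∃ l, l = act (Lap w k) h := ⟨_, rfl⟩
      have hg : g = fun i => h i + t * l i := by
        have h1 : act ((1 + t • Lap w k) * R) g = g := by rw [hR2, act_one]
        rw [act_mul, act_add, act_one, act_smul, ← hh, ← hl] at h1
        rw [← h1]
        funext i
        rw [Pi.add_apply, Pi.smul_apply, smul_eq_mul]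
      rw [← hh]
      have e1 := B6_lap hw hks h h
      have e2 := B6_lap hw hks l h
      rw [← hl] at e1 e2
      have p1 : 0 ≤ ∑ i, w i * (l i * l i) :=
        Finset.sum_nonneg fun i _ => mul_nonneg (hw i).le (mul_self_nonneg _)
      have p2 := B6_nonneg hk0 l
      have p3 := B6_nonneg hk0 h
      constructor
      · rw [← B6_self, ← B6_self, hg, B6_add, B6_comm k h l, ← e2]
        have q1 : 0 ≤ 2 * t * (2 * ∑ i, w i * (l i * l i)) := by positivity
        have q2 : 0 ≤ t ^ 2 * B6 k l l := by positivity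
        linarith
      · have e3 : ∑ i, w i * (g i) ^ 2 = ∑ i, w i * (h i) ^ 2 +
            t * (2 * ∑ i, w i * (h i * l i)) + t ^ 2 * ∑ i, w i * (l i * l i) := by
          rw [hg, Finset.mul_sum, Finset.mul_sum, Finset.mul_sum, ← Finset.sum_add_distrib,
            ← Finset.sum_add_distrib]
          refine Finset.sum_congr rfl fun i _ => ?_
          ring
        rw [e3, e1, ← B6_self]
        have q2 : 0 ≤ t ^ 2 * ∑ i, w i * (l i * l i) := by positivity
        linarith
    have hind : ∀ m : ℕ, t * m * En k (act (R ^ m) g) ≤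
        ∑ i, w i * (g i) ^ 2 - ∑ i, w i * (act (R ^ m) g i) ^ 2 := by
      intro m
      induction m with
      | zero =>
        rw [pow_zero, act_one]
        simp
      | succ m ih =>
        obtain ⟨h1, h2⟩ := hstep (act (R ^ m) g)
        rw [← act_mul, ← pow_succ'] at h1 h2
        have h3 : t * m * En k (act (R ^ (m + 1)) g) ≤ t * m * En k (act (R ^ m) g) :=
          mul_le_mul_of_nonneg_left h1 (by positivity)
        push_cast
        have e : t * (m + 1) * En k (act (R ^ (m + 1)) g) =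
            t * m * En k (act (R ^ (m + 1)) g) + t * En k (act (R ^ (m + 1)) g) := by ring
        rw [e]
        linarith
    have h4 := hind N
    rw [htN] at h4
    have h5 : 0 ≤ ∑ i, w i * (act (R ^ N) g i) ^ 2 :=
      Finset.sum_nonneg fun i _ => mul_nonneg (hw i).le (sq_nonneg _)
    linarith
  · intro E _ _ f
    have hone : ∑ i, w i * ‖f i - act R f i‖ ≤ t * ∑ i, ∑ j, k i j * ‖f i - f j‖ := by
      have h1 : ∀ i, f i - act R f i = t • act R (act (Lap w k) f) i := by
        intro i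
        have h2 : act (R * (1 + t • Lap w k)) f = f := by rw [hR1, act_one]
        rw [act_mul, act_add, act_one, act_smul, act_fun_add, act_fun_smul] at h2
        have h3 := congrFun h2 i
        rw [Pi.add_apply, Pi.smul_apply] at h3
        rw [sub_eq_iff_eq_add, add_comm]
        exact h3.symm
      calc ∑ i, w i * ‖f i - act R f i‖
          = t * ∑ i, w i * ‖act R (act (Lap w k) f) i‖ := by
            rw [Finset.mul_sum]
            refine Finset.sum_congr rfl fun i _ => ?_
            rw [h1 i, norm_smul, Real.norm_eq_abs, abs_of_nonneg ht0]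
            ring
        _ ≤ t * ∑ i, w i * ‖act (Lap w k) f i‖ :=
            mul_le_mul_of_nonneg_left (hR.norm_l1 hw _) ht0
        _ ≤ t * ∑ i, ∑ j, k i j * ‖f i - f j‖ := by
            refine mul_le_mul_of_nonneg_left (Finset.sum_le_sum fun i _ => ?_) ht0
            rw [act_lap, norm_smul, Real.norm_eq_abs, abs_of_pos (inv_pos.mpr (hw i)),
              ← mul_assoc, mul_inv_cancel₀ (hw i).ne', one_mul]
            refine (norm_sum_le _ _).trans (Finset.sum_le_sum fun j _ => ?_)
            rw [norm_smul, Real.norm_eq_abs, abs_of_nonneg (hk0 i j)]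
    have hind : ∀ m : ℕ, ∑ i, w i * ‖f i - act (R ^ m) f i‖ ≤
        t * m * ∑ i, ∑ j, k i j * ‖f i - f j‖ := by
      intro m
      induction m with
      | zero =>
        rw [pow_zero, act_one]
        simp
      | succ m ih =>
        have h1 : ∀ i, f i - act (R ^ (m + 1)) f i =
            (f i - act (R ^ m) f i) + act (R ^ m) (f - act R f) i := by
          intro i
          rw [pow_succ, act_mul, act_fun_sub, Pi.sub_apply]
          abel
        have h2 := (hR.pow m).norm_l1 hw (f - act R f)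
        have h3 : ∑ i, w i * ‖f i - act (R ^ (m + 1)) f i‖ ≤
            ∑ i, w i * ‖f i - act (R ^ m) f i‖ + ∑ i, w i * ‖act (R ^ m) (f - act R f) i‖ := by
          rw [← Finset.sum_add_distrib]
          refine Finset.sum_le_sum fun i _ => ?_
          rw [h1 i, ← mul_add]
          exact mul_le_mul_of_nonneg_left (norm_add_le _ _) (hw i).le
        have h4 : ∑ i, w i * ‖(f - act R f) i‖ = ∑ i, w i * ‖f i - act R f i‖ := rfl
        rw [h4] at h2
        push_cast
        have e : t * (m + 1) * ∑ i, ∑ j, k i j * ‖f i - f j‖ =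
            t * m * (∑ i, ∑ j, k i j * ‖f i - f j‖) + t * ∑ i, ∑ j, k i j * ‖f i - f j‖ := by
          ring
        rw [e]
        linarith
    have h4 := hind N
    rwa [htN] at h4

end Pool.Agent.Helper82.MK
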