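import Pool.Agent.Helper82.MK.Defs

/-!
# Project MK: matrices acting on vector valued functions, Markov matrices
-/

namespace Pool.Agent.Helper82.MK

open Finset

variable {n : ℕ}

section lin

variable {E : Type*} [AddCommGroup E] [Module ℝ E]

theorem act_apply (A : Matrix (Fin n) (Fin n) ℝ) (f : Fin n → E) (i : Fin n) :
    act A f i = ∑ j, A i j • f j := rfl

theorem act_one (f : Fin n → E) : act (1 : Matrix (Fin n) (Fin n) ℝ) f = f := by
  funext i
  rw [act_apply, Finset.sum_eq_single i]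
  · rw [Matrix.one_apply_eq, one_smul]
  · intro j _ hj
    rw [Matrix.one_apply_ne (Ne.symm hj), zero_smul]
  · intro h
    exact absurd (Finset.mem_univ i) h

theorem act_mul (A B : Matrix (Fin n) (Fin n) ℝ) (f : Fin n → E) :
    act (A * B) f = act A (act B f) := by
  funext i
  simp only [act_apply, Matrix.mul_apply, Finset.sum_smul, Finset.smul_sum, smul_smul]
  exact Finset.sum_comm

theorem act_add (A B : Matrix (Fin n) (Fin n) ℝ) (f : Fin n → E) :
    act (A + B) f = act A f + act B f := by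
  funext i
  simp only [act_apply, Matrix.add_apply, Pi.add_apply, add_smul, Finset.sum_add_distrib]

theorem act_sub (A B : Matrix (Fin n) (Fin n) ℝ) (f : Fin n → E) :
    act (A - B) f = act A f - act B f := by
  funext i
  simp only [act_apply, Matrix.sub_apply, Pi.sub_apply, sub_smul, Finset.sum_sub_distrib]

theorem act_smul (a : ℝ) (A : Matrix (Fin n) (Fin n) ℝ) (f : Fin n → E) :
    act (a • A) f = a • act A f := by
  funext i
  simp only [act_apply, Matrix.smul_apply, Pi.smul_apply, smul_eq_mul, mul_smul, Finset.smul_sum]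

theorem act_fun_add (A : Matrix (Fin n) (Fin n) ℝ) (f g : Fin n → E) :
    act A (f + g) = act A f + act A g := by
  funext i
  simp only [act_apply, Pi.add_apply, smul_add, Finset.sum_add_distrib]

theorem act_fun_sub (A : Matrix (Fin n) (Fin n) ℝ) (f g : Fin n → E) :
    act A (f - g) = act A f - act A g := by
  funext i
  simp only [act_apply, Pi.sub_apply, smul_sub, Finset.sum_sub_distrib]

theorem act_fun_smul (a : ℝ) (A : Matrix (Fin n) (Fin n) ℝ) (f : Fin n → E) :
    act A (a • f) = a • act A f := by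
  funext i
  simp only [act_apply, Pi.smul_apply, Finset.smul_sum]
  exact Finset.sum_congr rfl fun j _ => smul_comm _ _ _

theorem act_one_sub (A : Matrix (Fin n) (Fin n) ℝ) (f : Fin n → E) :
    act (1 - A) f = f - act A f := by
  rw [act_sub, act_one]

theorem act_linear {F : Type*} [AddCommGroup F] [Module ℝ F] (φ : E →ₗ[ℝ] F)
    (A : Matrix (Fin n) (Fin n) ℝ) (f : Fin n → E) (i : Fin n) :
    φ (act A f i) = act A (fun j => φ (f j)) i := by
  simp only [act_apply, map_sum, map_smul]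

end lin

section norm

variable {E : Type*} [NormedAddCommGroup E] [NormedSpace ℝ E]

theorem norm_act_le (A : Matrix (Fin n) (Fin n) ℝ) (f : Fin n → E) (i : Fin n) :
    ‖act A f i‖ ≤ ∑ j, |A i j| * ‖f j‖ := by
  refine (norm_sum_le _ _).trans (Finset.sum_le_sum fun j _ => ?_)
  rw [norm_smul, Real.norm_eq_abs]

end norm

section markov

variable {w : Fin n → ℝ}

theorem Mk.one (w : Fin n → ℝ) : Mk w (1 : Matrix (Fin n) (Fin n) ℝ) := by
  refine ⟨fun i j => ?_, fun i => ?_, fun i j => ?_⟩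
  · rw [Matrix.one_apply]
    split_ifs <;> norm_num
  · rw [Finset.sum_eq_single i]
    · exact Matrix.one_apply_eq i
    · intro j _ hj
      exact Matrix.one_apply_ne (Ne.symm hj)
    · intro h
      exact absurd (Finset.mem_univ i) h
  · rcases eq_or_ne i j with rfl | hij
    · rfl
    · rw [Matrix.one_apply_ne hij, Matrix.one_apply_ne hij.symm, mul_zero, mul_zero]

theorem Mk.mul_nonneg {A B : Matrix (Fin n) (Fin n) ℝ} (hA : Mk w A) (hB : Mk w B) (i j : Fin n) :
    0 ≤ (A * B) i j := by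
  rw [Matrix.mul_apply]
  exact Finset.sum_nonneg fun l _ => _root_.mul_nonneg (hA.nonneg i l) (hB.nonneg l j)

theorem Mk.mul_row {A B : Matrix (Fin n) (Fin n) ℝ} (hA : Mk w A) (hB : Mk w B) (i : Fin n) :
    ∑ j, (A * B) i j = 1 := by
  simp only [Matrix.mul_apply]
  rw [Finset.sum_comm]
  simp only [← Finset.mul_sum, hB.row, mul_one, hA.row]

theorem Mk.pow {A : Matrix (Fin n) (Fin n) ℝ} (hA : Mk w A) (m : ℕ) : Mk w (A ^ m) := by
  induction m with
  | zero => rw [pow_zero]; exact Mk.one w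
  | succ m ih =>
    refine ⟨fun i j => ?_, fun i => ?_, fun i j => ?_⟩
    · rw [pow_succ]
      exact ih.mul_nonneg hA i j
    · rw [pow_succ]
      exact ih.mul_row hA i
    · have h1 : (A ^ (m + 1)) i j = ∑ l, (A ^ m) i l * A l j := by
        rw [pow_succ, Matrix.mul_apply]
      have h2 : (A ^ (m + 1)) j i = ∑ l, A j l * (A ^ m) l i := by
        rw [pow_succ', Matrix.mul_apply]
      rw [h1, h2, Finset.mul_sum, Finset.mul_sum]
      refine Finset.sum_congr rfl fun l _ => ?_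
      rw [← mul_assoc, ih.sym i l, mul_right_comm, hA.sym l j]
      ring

/-- A symmetric Markov matrix preserves the integral. -/
theorem Mk.sum {A : Matrix (Fin n) (Fin n) ℝ} (hA : Mk w A) (g : Fin n → ℝ) :
    ∑ i, w i * ∑ j, A i j * g j = ∑ i, w i * g i := by
  have h1 : ∑ i, w i * ∑ j, A i j * g j = ∑ j, ∑ i, w j * A j i * g j := by
    simp only [Finset.mul_sum]
    rw [Finset.sum_comm]
    refine Finset.sum_congr rfl fun j _ => Finset.sum_congr rfl fun i _ => ?_
    rw [← mul_assoc, hA.sym i j]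
  rw [h1]
  refine Finset.sum_congr rfl fun j _ => ?_
  rw [← Finset.sum_mul, ← Finset.mul_sum, hA.row, mul_one]

theorem Mk.col {A : Matrix (Fin n) (Fin n) ℝ} (hA : Mk w A) (j : Fin n) :
    ∑ i, w i * A i j = w j := by
  have h1 : ∑ i, w i * A i j = ∑ i, w j * A j i := Finset.sum_congr rfl fun i _ => hA.sym i j
  rw [h1, ← Finset.mul_sum, hA.row, mul_one]

section norm

variable {E : Type*} [NormedAddCommGroup E] [NormedSpace ℝ E]

/-- A symmetric Markov matrix is a contraction of `L_1`. -/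
theorem Mk.norm_l1 (hw : ∀ i, 0 < w i) {A : Matrix (Fin n) (Fin n) ℝ} (hA : Mk w A)
    (f : Fin n → E) : ∑ i, w i * ‖act A f i‖ ≤ ∑ i, w i * ‖f i‖ := by
  rw [← hA.sum (fun j => ‖f j‖)]
  refine Finset.sum_le_sum fun i _ => mul_le_mul_of_nonneg_left ?_ (hw i).le
  refine (norm_act_le A f i).trans (le_of_eq ?_)
  exact Finset.sum_congr rfl fun j _ => by rw [abs_of_nonneg (hA.nonneg i j)]

/-- A Markov matrix is a contraction of `L_∞`. -/
theorem Mk.norm_sup {A : Matrix (Fin n) (Fin n) ℝ} (hA : Mk w A) {f : Fin n → E} {b : ℝ}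
    (hf : ∀ i, ‖f i‖ ≤ b) (i : Fin n) : ‖act A f i‖ ≤ b := by
  refine (norm_act_le A f i).trans ?_
  calc ∑ j, |A i j| * ‖f j‖ ≤ ∑ j, A i j * b := by
        refine Finset.sum_le_sum fun j _ => ?_
        rw [abs_of_nonneg (hA.nonneg i j)]
        exact mul_le_mul_of_nonneg_left (hf j) (hA.nonneg i j)
    _ = b := by rw [← Finset.sum_mul, hA.row, one_mul]

/-- `f - A f` is the average of the differences. -/
theorem Mk.sub_act {A : Matrix (Fin n) (Fin n) ℝ} (hA : Mk w A) (f : Fin n → E) (i : Fin n) :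
    f i - act A f i = ∑ j, A i j • (f i - f j) := by
  simp only [smul_sub, Finset.sum_sub_distrib, ← Finset.sum_smul, hA.row, one_smul, act_apply]

/-- A symmetric Markov matrix is a contraction of `L_2`. -/
theorem Mk.norm_l2 (hw : ∀ i, 0 < w i) {A : Matrix (Fin n) (Fin n) ℝ} (hA : Mk w A)
    (f : Fin n → E) : ∑ i, w i * ‖act A f i‖ ^ 2 ≤ ∑ i, w i * ‖f i‖ ^ 2 := by
  rw [← hA.sum (fun j => ‖f j‖ ^ 2)]
  refine Finset.sum_le_sum fun i _ => mul_le_mul_of_nonneg_left ?_ (hw i).le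
  have h1 : ‖act A f i‖ ≤ ∑ j, A i j * ‖f j‖ := by
    refine (norm_act_le A f i).trans (le_of_eq ?_)
    exact Finset.sum_congr rfl fun j _ => by rw [abs_of_nonneg (hA.nonneg i j)]
  have h2 := (convexOn_pow 2 : ConvexOn ℝ (Set.Ici (0 : ℝ)) fun x => x ^ 2).map_sum_le
    (t := Finset.univ) (w := fun j => A i j) (p := fun j => ‖f j‖)
    (fun j _ => hA.nonneg i j) (hA.row i) (fun j _ => norm_nonneg _)
  simp only [smul_eq_mul] at h2
  exact (pow_le_pow_left₀ (norm_nonneg _) h1 2).trans h2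

/-- The average displacement along a symmetric Markov matrix controls `f - A f` in `L_1`. -/
theorem Mk.sub_l1 (hw : ∀ i, 0 < w i) {A : Matrix (Fin n) (Fin n) ℝ} (hA : Mk w A)
    (f : Fin n → E) :
    ∑ i, w i * ‖f i - act A f i‖ ≤ ∑ i, ∑ j, w i * A i j * ‖f i - f j‖ := by
  refine Finset.sum_le_sum fun i _ => ?_
  rw [hA.sub_act f i]
  calc w i * ‖∑ j, A i j • (f i - f j)‖ ≤ w i * ∑ j, A i j * ‖f i - f j‖ := by
        refine mul_le_mul_of_nonneg_left ?_ (hw i).le
        refine (norm_sum_le _ _).trans (le_of_eq ?_)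
        exact Finset.sum_congr rfl fun j _ => by
          rw [norm_smul, Real.norm_eq_abs, abs_of_nonneg (hA.nonneg i j)]
    _ = ∑ j, w i * A i j * ‖f i - f j‖ := by
        rw [Finset.mul_sum]
        exact Finset.sum_congr rfl fun j _ => by ring

/-- The average squared displacement controls `f - A f` in `L_2`. -/
theorem Mk.sub_l2 (hw : ∀ i, 0 < w i) {A : Matrix (Fin n) (Fin n) ℝ} (hA : Mk w A)
    (f : Fin n → E) :
    ∑ i, w i * ‖f i - act A f i‖ ^ 2 ≤ ∑ i, ∑ j, w i * A i j * ‖f i - f j‖ ^ 2 := by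
  refine Finset.sum_le_sum fun i _ => ?_
  rw [hA.sub_act f i]
  have h1 : ‖∑ j, A i j • (f i - f j)‖ ≤ ∑ j, A i j * ‖f i - f j‖ := by
    refine (norm_sum_le _ _).trans (le_of_eq ?_)
    exact Finset.sum_congr rfl fun j _ => by
      rw [norm_smul, Real.norm_eq_abs, abs_of_nonneg (hA.nonneg i j)]
  have h2 := (convexOn_pow 2 : ConvexOn ℝ (Set.Ici (0 : ℝ)) fun x => x ^ 2).map_sum_le
    (t := Finset.univ) (w := fun j => A i j) (p := fun j => ‖f i - f j‖)
    (fun j _ => hA.nonneg i j) (hA.row i) (fun j _ => norm_nonneg _)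
  simp only [smul_eq_mul] at h2
  calc w i * ‖∑ j, A i j • (f i - f j)‖ ^ 2 ≤ w i * ∑ j, A i j * ‖f i - f j‖ ^ 2 :=
        mul_le_mul_of_nonneg_left ((pow_le_pow_left₀ (norm_nonneg _) h1 2).trans h2) (hw i).le
    _ = ∑ j, w i * A i j * ‖f i - f j‖ ^ 2 := by
        rw [Finset.mul_sum]
        exact Finset.sum_congr rfl fun j _ => by ring

end norm

section hilbert

variable {H : Type*} [NormedAddCommGroup H] [InnerProductSpace ℝ H]

open scoped InnerProductSpace

/-- Symmetric Markov matrices are self-adjoint. -/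
theorem Mk.adj {A : Matrix (Fin n) (Fin n) ℝ} (hA : Mk w A) (f g : Fin n → H) :
    ∑ i, w i * ⟪act A f i, g i⟫_ℝ = ∑ i, w i * ⟪f i, act A g i⟫_ℝ := by
  have h1 : ∑ i, w i * ⟪act A f i, g i⟫_ℝ = ∑ i, ∑ j, w i * A i j * ⟪f j, g i⟫_ℝ := by
    refine Finset.sum_congr rfl fun i _ => ?_
    rw [act_apply, sum_inner, Finset.mul_sum]
    refine Finset.sum_congr rfl fun j _ => ?_
    rw [real_inner_smul_left]
    ring
  have h2 : ∑ i, w i * ⟪f i, act A g i⟫_ℝ = ∑ i, ∑ j, w i * A i j * ⟪f i, g j⟫_ℝ := by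
    refine Finset.sum_congr rfl fun i _ => ?_
    rw [act_apply, inner_sum, Finset.mul_sum]
    refine Finset.sum_congr rfl fun j _ => ?_
    rw [real_inner_smul_right]
    ring
  rw [h1, h2, Finset.sum_comm]
  refine Finset.sum_congr rfl fun j _ => Finset.sum_congr rfl fun i _ => ?_
  rw [hA.sym i j]

/-- The energy identity for a symmetric Markov matrix. -/
theorem Mk.energy {A : Matrix (Fin n) (Fin n) ℝ} (hA : Mk w A) (f : Fin n → H) :
    2 * ∑ i, w i * ⟪f i - act A f i, f i⟫_ℝ = ∑ i, ∑ j, w i * A i j * ‖f i - f j‖ ^ 2 := by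
  have h1 : ∑ i, ∑ j, w i * A i j * ‖f i - f j‖ ^ 2 =
      ∑ i, ∑ j, w i * A i j * ‖f i‖ ^ 2 - 2 * ∑ i, ∑ j, w i * A i j * ⟪f i, f j⟫_ℝ +
        ∑ i, ∑ j, w i * A i j * ‖f j‖ ^ 2 := by
    rw [Finset.mul_sum, ← Finset.sum_sub_distrib, ← Finset.sum_add_distrib]
    refine Finset.sum_congr rfl fun i _ => ?_
    rw [Finset.mul_sum, ← Finset.sum_sub_distrib, ← Finset.sum_add_distrib]
    refine Finset.sum_congr rfl fun j _ => ?_
    rw [norm_sub_sq_real]
    ring
  have h2 : ∑ i, ∑ j, w i * A i j * ‖f i‖ ^ 2 = ∑ i, w i * ‖f i‖ ^ 2 := by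
    refine Finset.sum_congr rfl fun i _ => ?_
    rw [← Finset.sum_mul, ← Finset.mul_sum, hA.row, mul_one]
  have h3 : ∑ i, ∑ j, w i * A i j * ‖f j‖ ^ 2 = ∑ i, w i * ‖f i‖ ^ 2 := by
    rw [← hA.sum (fun j => ‖f j‖ ^ 2)]
    refine Finset.sum_congr rfl fun i _ => ?_
    rw [Finset.mul_sum]
    exact Finset.sum_congr rfl fun j _ => by ring
  have h4 : ∑ i, w i * ⟪act A f i, f i⟫_ℝ = ∑ i, ∑ j, w i * A i j * ⟪f i, f j⟫_ℝ := by
    rw [hA.adj]
    refine Finset.sum_congr rfl fun i _ => ?_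
    rw [act_apply, inner_sum, Finset.mul_sum]
    refine Finset.sum_congr rfl fun j _ => ?_
    rw [real_inner_smul_right]
    ring
  have h5 : ∑ i, w i * ⟪f i - act A f i, f i⟫_ℝ =
      ∑ i, w i * ‖f i‖ ^ 2 - ∑ i, w i * ⟪act A f i, f i⟫_ℝ := by
    rw [← Finset.sum_sub_distrib]
    refine Finset.sum_congr rfl fun i _ => ?_
    rw [inner_sub_left, real_inner_self_eq_norm_sq]
    ring
  rw [h5, h4, h1, h2, h3]
  ring

end hilbert

end markov

end Pool.Agent.Helper82.MK
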