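import Pool.Agent.Helper82.MK.Gap
import Pool.Agent.Helper82.MK.Iter

/-!
# Block MK-ND: the dual alternative is impossible for small `κ` (main inequality)

PROOF. `γ` from `gap h ε`. `η = γ / (16 C ^ 2)`; `N`, `δ` from `hX η`; `s = 1 / δ ^ 2`; `κ = min (ε / 2) (γ / (16 C ^ 2 s))`.
Let `n`, `z`, `μ`, `ν` be given (`n > 0` because `∑ μ = 1`). Put `m i j = (μ i j + μ j i) / 4`, `q i j = (ν i j + ν j i) / 4`
(symmetric; `∑ m = 1 / 2`, `∑ q d ≤ κ / 2` with `d i j = ‖z i - z j‖`,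
`En m g ≤ En q g` for real `g`), `w i = ∑_j m i j + 1 / (2 n)`: weights (`Wt w`). `M = 1 - Lap w m` is Markov (`mk_one_sub_lap`), `1 - M = Lap w m`.
`P` from `exists_iter` for `q`, `s`, `N`; `R = P ^ N`.
Scalars: `w_i ((L_m h)_i)² ≤ ∑_j m_ij (h_i - h_j)²` (Cauchy-Schwarz and `∑_j m_ij ≤ w_i`), so with `h = R g`
`∑ w (L_m R g)² ≤ En m h ≤ En q h ≤ (1 / s) ∑ w g² = δ² ∑ w g²`. So `hX` gives `∑ w ‖(L_m R z)_i‖ ≤ η`. Moreover
`L_m z = L_m R z + L_m (z - R z)` and `∑ w ‖L_m u‖ ≤ 2 ∑ w ‖u‖` (`L_m = 1 - M`, `Mk.norm_l1`), with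
`∑ w ‖z - R z‖ ≤ s ∑ q d ≤ s κ / 2`. Hence `∑ w ‖(L_m z)_i‖ ≤ η + s κ`.
Take `φ i` from `exists_dual h (z i)`; `|φ i v| ≤ N (z i) N v ≤ C² ‖v‖`, so `∑ w_i φ_i ((L_m z)_i) ≤ C² (η + s κ) ≤ γ / 8`. But
`∑ w_i φ_i ((L_m z)_i) = ∑_ij m_ij φ_i (z_i - z_j) = (1 / 2) ∑_ij m_ij (φ_i - φ_j) (z_i - z_j) ≥ (1 / 2) ∑ m_ij γ = γ / 4` by
`dual_mono` and `gap` (`m_ij = 0` unless `‖z_i - z_j‖ ≥ ε`). Contradiction.
-/

universe u

namespace Pool.Agent.Helper82.MK

open Finset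

private lemma sum_symm {n : ℕ} {k : Fin n → Fin n → ℝ} (hk : ∀ i j, k i j = k j i) (a : Fin n → Fin n → ℝ) :
    ∑ i, ∑ j, k i j * a i j = ∑ i, ∑ j, k i j * a j i := by
  rw [Finset.sum_comm]
  exact Finset.sum_congr rfl fun j _ => Finset.sum_congr rfl fun i _ => by rw [hk i j]

private lemma sum_half {n : ℕ} (k : Fin n → Fin n → ℝ) {a : Fin n → Fin n → ℝ}
    (ha : ∀ i j, a i j = a j i) :
    ∑ i, ∑ j, (k i j + k j i) / 4 * a i j = (∑ i, ∑ j, k i j * a i j) / 2 := by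
  have h1 : ∑ i, ∑ j, k j i * a i j = ∑ i, ∑ j, k i j * a i j := by
    rw [Finset.sum_comm]
    exact Finset.sum_congr rfl fun j _ => Finset.sum_congr rfl fun i _ => by rw [ha i j]
  have h2 : ∑ i, ∑ j, (k i j + k j i) / 4 * a i j =
      (∑ i, ∑ j, k i j * a i j) / 4 + (∑ i, ∑ j, k j i * a i j) / 4 := by
    rw [Finset.sum_div, Finset.sum_div, ← Finset.sum_add_distrib]
    refine Finset.sum_congr rfl fun i _ => ?_
    rw [Finset.sum_div, Finset.sum_div, ← Finset.sum_add_distrib]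
    exact Finset.sum_congr rfl fun j _ => by ring
  rw [h2, h1]
  ring

private lemma en_real {n : ℕ} (k : Fin n → Fin n → ℝ) (g : Fin n → ℝ) :
    En k g = ∑ i, ∑ j, k i j * (g i - g j) ^ 2 := by
  unfold En
  exact Finset.sum_congr rfl fun i _ => Finset.sum_congr rfl fun j _ => by
    rw [Real.norm_eq_abs, sq_abs]

private lemma lap_sq_le {n : ℕ} {w : Fin n → ℝ} (hw : ∀ i, 0 < w i) {k : Fin n → Fin n → ℝ}
    (hk0 : ∀ i j, 0 ≤ k i j) (hkw : ∀ i, ∑ j, k i j ≤ w i) (g : Fin n → ℝ) :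
    ∑ i, w i * (act (Lap w k) g i) ^ 2 ≤ En k g := by
  rw [en_real]
  refine Finset.sum_le_sum fun i _ => ?_
  have h1 : (∑ j, k i j * (g i - g j)) ^ 2 ≤ (∑ j, k i j) * ∑ j, k i j * (g i - g j) ^ 2 :=
    Finset.sum_sq_le_sum_mul_sum_of_sq_le_mul _ (fun j _ => hk0 i j)
      (fun j _ => mul_nonneg (hk0 i j) (sq_nonneg _)) (fun j _ => le_of_eq (by ring))
  have h2 : 0 ≤ ∑ j, k i j * (g i - g j) ^ 2 :=
    Finset.sum_nonneg fun j _ => mul_nonneg (hk0 i j) (sq_nonneg _)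
  have h3 := h1.trans (mul_le_mul_of_nonneg_right (hkw i) h2)
  rw [act_lap]
  simp only [smul_eq_mul]
  have hwi := hw i
  have h4 : w i * ((w i)⁻¹ * ∑ j, k i j * (g i - g j)) ^ 2 =
      (w i)⁻¹ * (∑ j, k i j * (g i - g j)) ^ 2 := by
    field_simp
  rw [h4, inv_mul_le_iff₀ hwi]
  exact h3

private lemma lap_l1 {E : Type*} [NormedAddCommGroup E] [NormedSpace ℝ E] {n : ℕ} {w : Fin n → ℝ}
    (hw : ∀ i, 0 < w i) {k : Fin n → Fin n → ℝ} (hM : Mk w (1 - Lap w k)) (u : Fin n → E) :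
    ∑ i, w i * ‖act (Lap w k) u i‖ ≤ 2 * ∑ i, w i * ‖u i‖ := by
  have h1 := hM.norm_l1 hw u
  have h2 : ∀ i, w i * ‖act (Lap w k) u i‖ ≤ w i * ‖u i‖ + w i * ‖act (1 - Lap w k) u i‖ := by
    intro i
    have h3 : act (Lap w k) u i = u i - act (1 - Lap w k) u i := by
      rw [act_one_sub, Pi.sub_apply, sub_sub_cancel]
    rw [h3, ← mul_add]
    exact mul_le_mul_of_nonneg_left (norm_sub_le _ _) (hw i).le
  have h4 := Finset.sum_le_sum fun i (_ : i ∈ (Finset.univ : Finset (Fin n))) => h2 i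
  rw [Finset.sum_add_distrib] at h4
  linarith

theorem no_dual {X : Type u} [NormedAddCommGroup X] [NormedSpace ℝ X] {N : X → ℝ} {c C : ℝ}
    (h : UCN X N c C) (hX : MCurved X) (ε : ℝ) (hε : 0 < ε) :
    ∃ κ : ℝ, 0 < κ ∧ κ < ε ∧ ∀ (n : ℕ) (z : Fin n → X), (∀ i, ‖z i‖ ≤ 1) →
      ¬ ∃ μ ν : Fin n → Fin n → ℝ, (∀ i j, 0 ≤ μ i j) ∧ (∀ i j, 0 ≤ ν i j) ∧
        (∀ i j, ‖z i - z j‖ < ε → μ i j = 0) ∧ ∑ i, ∑ j, μ i j = 1 ∧
        ∑ i, ∑ j, ν i j * ‖z i - z j‖ ≤ κ ∧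
        ∀ g : Fin n → ℝ, ∑ i, ∑ j, μ i j * (g i - g j) ^ 2 ≤
          ∑ i, ∑ j, ν i j * (g i - g j) ^ 2 := by
  obtain ⟨γ, hγ, hgap⟩ := gap h ε hε
  have hC := h.C_pos
  obtain ⟨K, hK, δ, hδ, hM⟩ := hX (γ / (16 * C ^ 2)) (by positivity)
  have hδ2 : (0 : ℝ) < δ ^ 2 := by positivity
  refine ⟨min (ε / 2) (γ * δ ^ 2 / (16 * C ^ 2)), lt_min (by positivity) (by positivity),
    lt_of_le_of_lt (min_le_left _ _) (by linarith), ?_⟩
  rintro n z hz ⟨μ, ν, hμ, hν, hfar, hμ1, hνκ, hen⟩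
  have hνκ' : ∑ i, ∑ j, ν i j * ‖z i - z j‖ ≤ γ * δ ^ 2 / (16 * C ^ 2) :=
    hνκ.trans (min_le_right _ _)
  have hn : 0 < n := by
    rcases Nat.eq_zero_or_pos n with rfl | hn
    · simp at hμ1
    · exact hn
  have hn' : (0 : ℝ) < n := by exact_mod_cast hn
  obtain ⟨m, hm⟩ : ∃ m : Fin n → Fin n → ℝ, m = fun i j => (μ i j + μ j i) / 4 := ⟨_, rfl⟩
  obtain ⟨q, hq⟩ : ∃ q : Fin n → Fin n → ℝ, q = fun i j => (ν i j + ν j i) / 4 := ⟨_, rfl⟩
  obtain ⟨w, hw⟩ : ∃ w : Fin n → ℝ, w = fun i => ∑ j, m i j + 1 / (2 * n) := ⟨_, rfl⟩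
  have hm0 : ∀ i j, 0 ≤ m i j := fun i j => by
    rw [hm]
    exact div_nonneg (add_nonneg (hμ i j) (hμ j i)) (by norm_num)
  have hq0 : ∀ i j, 0 ≤ q i j := fun i j => by
    rw [hq]
    exact div_nonneg (add_nonneg (hν i j) (hν j i)) (by norm_num)
  have hms : ∀ i j, m i j = m j i := fun i j => by
    rw [hm]
    simp only [add_comm]
  have hqs : ∀ i j, q i j = q j i := fun i j => by
    rw [hq]
    simp only [add_comm]
  have hmsum : ∑ i, ∑ j, m i j = 1 / 2 := by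
    have h1 := sum_half μ (a := fun _ _ => 1) (fun _ _ => rfl)
    simp only [mul_one, hμ1] at h1
    rw [hm]
    exact h1
  have hmw : ∀ i, ∑ j, m i j ≤ w i := fun i => by
    rw [hw]
    have : (0 : ℝ) ≤ 1 / (2 * n) := by positivity
    simp only
    linarith
  have hw0 : ∀ i, 0 < w i := fun i => by
    rw [hw]
    have h1 : (0 : ℝ) < 1 / (2 * n) := by positivity
    have h2 : 0 ≤ ∑ j, m i j := Finset.sum_nonneg fun j _ => hm0 i j
    simp only
    linarith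
  have hw1 : ∑ i, w i = 1 := by
    rw [hw, Finset.sum_add_distrib, hmsum, Finset.sum_const, Finset.card_univ, Fintype.card_fin,
      nsmul_eq_mul]
    field_simp
    norm_num
  have hMk : Mk w (1 - Lap w m) := mk_one_sub_lap hw0 hm0 hms hmw
  obtain ⟨P, hP, hP2, hP1⟩ := exists_iter hw0 hq0 hqs (1 / δ ^ 2) (by positivity) K hK
  have hmq : ∀ g : Fin n → ℝ, En m g ≤ En q g := by
    intro g
    have hs : ∀ i j, (g i - g j) ^ 2 = (g j - g i) ^ 2 := fun i j => by ring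
    rw [en_real, en_real, hm, hq]
    have h1 := sum_half μ hs
    have h2 := sum_half ν hs
    rw [h1, h2]
    have := hen g
    linarith
  have h1M : (1 : Matrix (Fin n) (Fin n) ℝ) - (1 - Lap w m) = Lap w m := sub_sub_cancel _ _
  have hsc : ∀ g : Fin n → ℝ, ∑ i, w i * (act ((1 - (1 - Lap w m)) * P ^ K) g i) ^ 2 ≤
      δ ^ 2 * ∑ i, w i * (g i) ^ 2 := by
    intro g
    rw [h1M]
    have h1 := lap_sq_le hw0 hm0 hmw (act (P ^ K) g)
    have h2 := hmq (act (P ^ K) g)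
    have h3 := hP2 g
    have h4 : En q (act (P ^ K) g) ≤ δ ^ 2 * ∑ i, w i * (g i) ^ 2 := by
      rw [one_div, inv_mul_le_iff₀ hδ2] at h3
      exact h3
    simp only [act_mul]
    exact (h1.trans h2).trans h4
  have hA := hM n w (1 - Lap w m) P ⟨hw0, hw1⟩ hMk hP hsc z hz
  rw [h1M] at hA
  have hqd : ∑ i, ∑ j, q i j * ‖z i - z j‖ = (∑ i, ∑ j, ν i j * ‖z i - z j‖) / 2 := by
    rw [hq]
    exact sum_half ν fun i j => norm_sub_rev _ _
  have hB := hP1 X z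
  rw [hqd] at hB
  have hB' : ∑ i, w i * ‖z i - act (P ^ K) z i‖ ≤ γ / (32 * C ^ 2) := by
    refine hB.trans ?_
    have h1 : 1 / δ ^ 2 * ((∑ i, ∑ j, ν i j * ‖z i - z j‖) / 2) ≤
        1 / δ ^ 2 * ((γ * δ ^ 2 / (16 * C ^ 2)) / 2) :=
      mul_le_mul_of_nonneg_left (by linarith) (by positivity)
    refine h1.trans (le_of_eq ?_)
    field_simp
    norm_num
  have hL := lap_l1 hw0 hMk (fun i => z i - act (P ^ K) z i)
  have hD : ∑ i, w i * ‖act (Lap w m) z i‖ ≤ γ / (8 * C ^ 2) := by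
    have h1 : ∀ i, w i * ‖act (Lap w m) z i‖ ≤ w i * ‖act (Lap w m * P ^ K) z i‖ +
        w i * ‖act (Lap w m) (fun i => z i - act (P ^ K) z i) i‖ := by
      intro i
      have h2 : act (Lap w m) z i = act (Lap w m * P ^ K) z i +
          act (Lap w m) (fun i => z i - act (P ^ K) z i) i := by
        have h3 : (fun i => z i - act (P ^ K) z i) = z - act (P ^ K) z := rfl
        rw [h3, act_fun_sub, act_mul, Pi.sub_apply]
        abel
      rw [h2, ← mul_add]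
      exact mul_le_mul_of_nonneg_left (norm_add_le _ _) (hw0 i).le
    have h4 := Finset.sum_le_sum fun i (_ : i ∈ (Finset.univ : Finset (Fin n))) => h1 i
    rw [Finset.sum_add_distrib] at h4
    have h5 : γ / (16 * C ^ 2) + 2 * (γ / (32 * C ^ 2)) = γ / (8 * C ^ 2) := by
      field_simp
      norm_num
    linarith
  choose φ hφ hφ' using fun i => exists_dual h (z i)
  have hE : ∑ i, w i * φ i (act (Lap w m) z i) ≤ γ / 8 := by
    have h1 : ∀ i, w i * φ i (act (Lap w m) z i) ≤ C ^ 2 * (w i * ‖act (Lap w m) z i‖) := by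
      intro i
      have h2 := (le_abs_self _).trans (hφ' i (act (Lap w m) z i))
      have h3 : N (z i) ≤ C := by
        have := h.upper (z i)
        nlinarith [hz i]
      have h4 := h.upper (act (Lap w m) z i)
      have h5 : N (z i) * N (act (Lap w m) z i) ≤ C * (C * ‖act (Lap w m) z i‖) :=
        mul_le_mul h3 h4 (h.nonneg _) hC.le
      have h6 := mul_le_mul_of_nonneg_left (h2.trans h5) (hw0 i).le
      refine h6.trans (le_of_eq (by ring))
    have h7 := Finset.sum_le_sum fun i (_ : i ∈ (Finset.univ : Finset (Fin n))) => h1 i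
    rw [← Finset.mul_sum] at h7
    refine h7.trans ((mul_le_mul_of_nonneg_left hD (by positivity)).trans (le_of_eq ?_))
    field_simp
  have hF : ∑ i, w i * φ i (act (Lap w m) z i) = ∑ i, ∑ j, m i j * φ i (z i - z j) := by
    refine Finset.sum_congr rfl fun i _ => ?_
    rw [act_lap, map_smul, smul_eq_mul, map_sum, ← mul_assoc, mul_inv_cancel₀ (hw0 i).ne', one_mul]
    exact Finset.sum_congr rfl fun j _ => by rw [map_smul, smul_eq_mul]
  have hG : ∑ i, ∑ j, m i j * φ i (z i - z j) = - ∑ i, ∑ j, m i j * φ j (z i - z j) := by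
    rw [sum_symm hms (fun i j => φ i (z i - z j)), ← Finset.sum_neg_distrib]
    refine Finset.sum_congr rfl fun i _ => ?_
    rw [← Finset.sum_neg_distrib]
    refine Finset.sum_congr rfl fun j _ => ?_
    rw [← neg_sub (z i) (z j), map_neg, mul_neg]
  have hH : γ / 2 ≤ ∑ i, ∑ j, m i j * (φ i (z i - z j) - φ j (z i - z j)) := by
    have h1 : γ / 2 = ∑ i, ∑ j, m i j * γ := by
      simp only [← Finset.sum_mul, hmsum]
      ring
    rw [h1]
    refine Finset.sum_le_sum fun i _ => Finset.sum_le_sum fun j _ => ?_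
    rcases lt_or_ge ‖z i - z j‖ ε with hlt | hge
    · have h2 : m i j = 0 := by
        rw [hm]
        simp only [hfar i j hlt, hfar j i (by rwa [norm_sub_rev])]
        norm_num
      rw [h2, zero_mul, zero_mul]
    · refine mul_le_mul_of_nonneg_left ?_ (hm0 i j)
      exact (hgap (z i) (z j) (hz i) (hz j) hge).trans
        (dual_mono h (z i) (z j) (φ i) (φ j) (hφ i) (hφ' i) (hφ j) (hφ' j))
  have hI : ∑ i, ∑ j, m i j * (φ i (z i - z j) - φ j (z i - z j)) =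
      ∑ i, ∑ j, m i j * φ i (z i - z j) - ∑ i, ∑ j, m i j * φ j (z i - z j) := by
    rw [← Finset.sum_sub_distrib]
    refine Finset.sum_congr rfl fun i _ => ?_
    rw [← Finset.sum_sub_distrib]
    exact Finset.sum_congr rfl fun j _ => by ring
  linarith

end Pool.Agent.Helper82.MK
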