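import Pool.Agent.Helper82.MK.Mat

/-!
# Block MK-RES: the resolvent of a weighted Laplacian is a symmetric Markov matrix

PROOF. `act_lap`: definition. `mk_one_sub_lap`: if `∑_j k i j ≤ w i` then `1 - L` is a symmetric Markov matrix (entries
`k i j / w i` off the diagonal, `1 - (∑_l k i l - k i i) / w i` on it).
`exists_resolvent`: `A = 1 + t L` (`t ≥ 0`) is injective on `ℝ^n`: if `A h = 0`, let `i` be an index where `|h i|` is
maximal; `(A h) i = h i + (t / w i) ∑_j k i j (h i - h j)`, so `|h i| ≤ 0` (consider `h` or `-h`, `h i ≥ 0`, all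
`h i - h j ≥ 0`). So `A` is invertible (`Matrix.mulVec_injective_iff_isUnit` or a determinant / finite dimension argument); `R = A⁻¹`.
`R 1 = 1` as `A 1 = 1` (rows of `L` sum to `0`). `R ≥ 0`: the column `h = R e_j` satisfies `A h = e_j ≥ 0`; at an index `i` where
`h` is minimal `0 ≤ (A h) i ≤ h i`. Symmetry: `w i A i j = w j A j i`, that is, `W A = Aᵀ W` with
`W = diagonal w`; multiply with `R` on both sides.
-/

namespace Pool.Agent.Helper82.MK

open Finset

variable {n : ℕ}

private theorem lap_apply62 (w : Fin n → ℝ) (k : Fin n → Fin n → ℝ) (i j : Fin n) :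
    Lap w k i j = ((if i = j then ∑ l, k i l else 0) - k i j) / w i := rfl

private theorem lap_row62 (w : Fin n → ℝ) (k : Fin n → Fin n → ℝ) (i : Fin n) :
    ∑ j, Lap w k i j = 0 := by
  simp only [lap_apply62]
  rw [← Finset.sum_div, Finset.sum_sub_distrib, Finset.sum_ite_eq, if_pos (Finset.mem_univ i),
    sub_self, zero_div]

private theorem lap_sym62 {w : Fin n → ℝ} (hw : ∀ i, 0 < w i) {k : Fin n → Fin n → ℝ}
    (hks : ∀ i j, k i j = k j i) (i j : Fin n) : w i * Lap w k i j = w j * Lap w k j i := by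
  rcases eq_or_ne i j with rfl | hij
  · rfl
  · rw [lap_apply62, lap_apply62, if_neg hij, if_neg hij.symm, mul_div_cancel₀ _ (hw i).ne',
      mul_div_cancel₀ _ (hw j).ne', hks i j]

theorem act_lap {E : Type*} [NormedAddCommGroup E] [NormedSpace ℝ E] (w : Fin n → ℝ)
    (k : Fin n → Fin n → ℝ) (f : Fin n → E) (i : Fin n) :
    act (Lap w k) f i = (w i)⁻¹ • ∑ j, k i j • (f i - f j) := by
  have h1 : ∀ j, (Lap w k) i j • f j =
      (w i)⁻¹ • ((if i = j then (∑ l, k i l) • f j else 0) - k i j • f j) := by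
    intro j
    rw [lap_apply62, div_eq_inv_mul, mul_smul, sub_smul]
    split_ifs with h
    · rfl
    · rw [zero_smul]
  rw [act_apply, Finset.sum_congr rfl (fun j _ => h1 j), ← Finset.smul_sum,
    Finset.sum_sub_distrib, Finset.sum_ite_eq, if_pos (Finset.mem_univ i)]
  congr 1
  simp only [smul_sub, Finset.sum_sub_distrib, Finset.sum_smul]

theorem mk_one_sub_lap {w : Fin n → ℝ} (hw : ∀ i, 0 < w i) {k : Fin n → Fin n → ℝ}
    (hk0 : ∀ i j, 0 ≤ k i j) (hks : ∀ i j, k i j = k j i) (hkw : ∀ i, ∑ j, k i j ≤ w i) :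
    Mk w (1 - Lap w k) := by
  refine ⟨fun i j => ?_, fun i => ?_, fun i j => ?_⟩
  · rw [Matrix.sub_apply, lap_apply62]
    rcases eq_or_ne i j with rfl | hij
    · rw [Matrix.one_apply_eq, if_pos rfl, sub_nonneg, div_le_one (hw i)]
      linarith [hkw i, hk0 i i]
    · rw [Matrix.one_apply_ne hij, if_neg hij, zero_sub, zero_sub, neg_div, neg_neg]
      exact div_nonneg (hk0 i j) (hw i).le
  · simp only [Matrix.sub_apply]
    rw [Finset.sum_sub_distrib, lap_row62, (Mk.one w).row, sub_zero]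
  · rw [Matrix.sub_apply, Matrix.sub_apply, mul_sub, mul_sub, (Mk.one w).sym i j,
      lap_sym62 hw hks i j]

private theorem act_res62 (w : Fin n → ℝ) (k : Fin n → Fin n → ℝ) (t : ℝ) (h : Fin n → ℝ)
    (i : Fin n) : act (1 + t • Lap w k) h i =
      h i + t * ((w i)⁻¹ * ∑ j, k i j * (h i - h j)) := by
  rw [act_add, act_one, act_smul, Pi.add_apply, Pi.smul_apply, act_lap]
  simp only [smul_eq_mul]

private theorem min62 {w : Fin n → ℝ} (hw : ∀ i, 0 < w i) {k : Fin n → Fin n → ℝ}
    (hk0 : ∀ i j, 0 ≤ k i j) (t : ℝ) (ht : 0 ≤ t) (h : Fin n → ℝ)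
    (hA : ∀ i, 0 ≤ act (1 + t • Lap w k) h i) (i : Fin n) : 0 ≤ h i := by
  have : Nonempty (Fin n) := ⟨i⟩
  obtain ⟨i₀, hi₀⟩ := Finite.exists_min h
  refine le_trans ?_ (hi₀ i)
  have h1 := hA i₀
  rw [act_res62] at h1
  have h2 : ∑ j, k i₀ j * (h i₀ - h j) ≤ 0 := Finset.sum_nonpos fun j _ =>
    mul_nonpos_of_nonneg_of_nonpos (hk0 i₀ j) (sub_nonpos.2 (hi₀ j))
  have h3 : t * ((w i₀)⁻¹ * ∑ j, k i₀ j * (h i₀ - h j)) ≤ 0 :=
    mul_nonpos_of_nonneg_of_nonpos ht
      (mul_nonpos_of_nonneg_of_nonpos (inv_pos.2 (hw i₀)).le h2)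
  linarith

theorem exists_resolvent {w : Fin n → ℝ} (hw : ∀ i, 0 < w i) {k : Fin n → Fin n → ℝ}
    (hk0 : ∀ i j, 0 ≤ k i j) (hks : ∀ i j, k i j = k j i) (t : ℝ) (ht : 0 ≤ t) :
    ∃ R : Matrix (Fin n) (Fin n) ℝ, Mk w R ∧ R * (1 + t • Lap w k) = 1 ∧
      (1 + t • Lap w k) * R = 1 := by
  have hmin := min62 hw hk0 t ht
  have hrow : ∀ i, ∑ j, (1 + t • Lap w k) i j = 1 := by
    intro i
    simp only [Matrix.add_apply, Matrix.smul_apply, smul_eq_mul]
    rw [Finset.sum_add_distrib, ← Finset.mul_sum, lap_row62, (Mk.one w).row, mul_zero, add_zero]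
  have hsym : ∀ i j, w i * (1 + t • Lap w k) i j = w j * (1 + t • Lap w k) j i := by
    intro i j
    simp only [Matrix.add_apply, Matrix.smul_apply, smul_eq_mul]
    have h1 := (Mk.one w).sym i j
    have h2 := lap_sym62 hw hks i j
    linear_combination h1 + t * h2
  generalize 1 + t • Lap w k = A at hmin hrow hsym ⊢
  have hinj : Function.Injective A.mulVec := by
    intro f g hfg
    have h0 : ∀ i, act A (f - g) i = 0 := by
      intro i
      have := congrFun hfg i
      rw [act_fun_sub, Pi.sub_apply, sub_eq_zero]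
      exact this
    funext i
    have h1 := hmin (f - g) (fun i => (h0 i).ge) i
    have h2 := hmin (-(f - g)) (fun i => by
      have : -(f - g) = (-1 : ℝ) • (f - g) := by rw [neg_one_smul]
      rw [this, act_fun_smul, Pi.smul_apply, h0 i, smul_zero]) i
    simp only [Pi.sub_apply, Pi.neg_apply] at h1 h2
    linarith
  obtain ⟨u, hu⟩ := Matrix.mulVec_injective_iff_isUnit.1 hinj
  have hRA : (↑u⁻¹ : Matrix (Fin n) (Fin n) ℝ) * A = 1 := by rw [← hu]; exact u.inv_mul
  have hAR : A * (↑u⁻¹ : Matrix (Fin n) (Fin n) ℝ) = 1 := by rw [← hu]; exact u.mul_inv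
  generalize (↑u⁻¹ : Matrix (Fin n) (Fin n) ℝ) = R at hRA hAR
  refine ⟨R, ⟨fun i j => ?_, fun i => ?_, fun i j => ?_⟩, hRA, hAR⟩
  · refine hmin (fun l => R l j) (fun i => ?_) i
    have h1 : act A (fun l => R l j) i = (A * R) i j := by
      rw [act_apply, Matrix.mul_apply]
      rfl
    rw [h1, hAR]
    exact (Mk.one w).nonneg i j
  · have h1 : ∑ j, (R * A) i j = ∑ j, R i j := by
      simp only [Matrix.mul_apply]
      rw [Finset.sum_comm]
      simp only [← Finset.mul_sum, hrow, mul_one]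
    rw [← h1, hRA]
    exact (Mk.one w).row i
  · have hD : Matrix.diagonal w * A = A.transpose * Matrix.diagonal w := by
      ext i j
      rw [Matrix.diagonal_mul, Matrix.mul_diagonal, Matrix.transpose_apply, hsym i j, mul_comm]
    have hR : R.transpose * Matrix.diagonal w = Matrix.diagonal w * R := by
      calc R.transpose * Matrix.diagonal w
          = R.transpose * Matrix.diagonal w * (A * R) := by rw [hAR, mul_one]
        _ = R.transpose * (Matrix.diagonal w * A) * R := by simp only [Matrix.mul_assoc]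
        _ = R.transpose * (A.transpose * Matrix.diagonal w) * R := by rw [hD]
        _ = (R.transpose * A.transpose) * Matrix.diagonal w * R := by
            simp only [Matrix.mul_assoc]
        _ = Matrix.diagonal w * R := by
            rw [← Matrix.transpose_mul, hAR, Matrix.transpose_one, one_mul]
    have h3 := congrFun (congrFun hR i) j
    rw [Matrix.diagonal_mul, Matrix.mul_diagonal, Matrix.transpose_apply] at h3
    rw [← h3, mul_comm]

end Pool.Agent.Helper82.MK
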