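import Pool.Agent.Helper82.MK.Gap
import Pool.Agent.Helper82.MK.Mat

/-!
# Block MK-SCALE: a scale at which the function is almost invariant (martingale argument)

PROOF of `exists_scale`. `γ` from `mid_gap h (ε / 2)`; `K` with `C ^ 2 / (2 γ K) * 2 ≤ ε / 2`, `K > 0`. For `j ≤ K` let
`h_j = act (P ^ (2 ^ K - 2 ^ j)) f` and `a_j = ∑ w_x N (h_j x) ^ 2 ∈ [0, C ^ 2]` (`‖h_j x‖ ≤ 1`, `Mk.norm_sup`). For `j < K`, `τ = 2 ^ j`, `g = h_(j+1)`,
`2 ^ K - 2 ^ j = τ + (2 ^ K - 2 ^ (j+1))`, so `h_j = act (P ^ τ) g`. Put `Q = P ^ τ` (`Mk.pow`), `v = act Q g = h_j`. For all `x`: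
`N (v x) ^ 2 = N (∑_y Q x y • (1/2) • (v x + g y)) ^ 2 ≤ ∑_y Q x y N ((1/2) • (v x + g y)) ^ 2` (Jensen, as
`∑_y Q x y • g y = v x`). Integrating, with `∑_x w_x ∑_y Q x y N (g y) ^ 2 = a_(j+1)` (`Mk.sum`):
`∑_xy w_x Q x y [(N (v x) ^ 2 + N (g y) ^ 2) / 2 - N ((1/2) • (v x + g y)) ^ 2] ≤ (a_(j+1) - a_j) / 2`.
The bracket is `≥ 0`, and `≥ γ` if `‖g y - v x‖ ≥ ε / 2`; so, as `‖g y - v x‖ ≤ ε / 2 + 2 * 1[‖g y - v x‖ ≥ ε / 2]`, the sum
`∑_xy w_x Q x y ‖g y - v x‖ ≤ ε / 2 + (2 / γ) (a_(j+1) - a_j) / 2`. Since `∑_(j<K) (a_(j+1) - a_j) ≤ C ^ 2`, some `j < K` has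
`a_(j+1) - a_j ≤ C ^ 2 / K`.
-/

universe u

namespace Pool.Agent.Helper82.MK

open Finset

private theorem h99_step {X : Type u} [NormedAddCommGroup X] [NormedSpace ℝ X] {N : X → ℝ}
    {c C : ℝ} (h : UCN X N c C) {γ ε : ℝ} (hγ : 0 < γ) (hε : 0 < ε)
    (hgap : ∀ x y : X, ‖x‖ ≤ 1 → ‖y‖ ≤ 1 → ε / 2 ≤ ‖x - y‖ →
      γ ≤ (N x ^ 2 + N y ^ 2) / 2 - N ((1 / 2 : ℝ) • (x + y)) ^ 2)
    {n : ℕ} {w : Fin n → ℝ} {Q : Matrix (Fin n) (Fin n) ℝ} (hw : Wt w) (hQ : Mk w Q)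
    (g : Fin n → X) (hg : ∀ i, ‖g i‖ ≤ 1) :
    ∑ x, ∑ y, w x * Q x y * ‖g y - act Q g x‖ ≤
      ε / 2 + 1 / γ * (∑ x, w x * N (g x) ^ 2 - ∑ x, w x * N (act Q g x) ^ 2) := by
  have hv : ∀ i, ‖act Q g i‖ ≤ 1 := fun i => hQ.norm_sup hg i
  have hvdef : ∀ x, act Q g x = ∑ y, Q x y • g y := fun x => rfl
  set v := act Q g
  have hb : ∀ x y, ‖g y - v x‖ ≤ ε / 2 + 2 / γ * ((N (v x) ^ 2 + N (g y) ^ 2) / 2 -
      N ((1 / 2 : ℝ) • (v x + g y)) ^ 2) := by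
    intro x y
    rcases le_or_gt (ε / 2) ‖v x - g y‖ with h1 | h1
    · have h2 := hgap (v x) (g y) (hv x) (hg y) h1
      have h3 : ‖g y - v x‖ ≤ 2 := (norm_sub_le _ _).trans (by linarith [hg y, hv x])
      have h4 : 2 / γ * γ ≤ 2 / γ * ((N (v x) ^ 2 + N (g y) ^ 2) / 2 -
          N ((1 / 2 : ℝ) • (v x + g y)) ^ 2) := mul_le_mul_of_nonneg_left h2 (by positivity)
      rw [div_mul_cancel₀ _ hγ.ne'] at h4
      linarith
    · have h2 := mid_gap_nonneg h (v x) (g y)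
      rw [norm_sub_rev]
      have h3 : 0 ≤ 2 / γ * ((N (v x) ^ 2 + N (g y) ^ 2) / 2 -
          N ((1 / 2 : ℝ) • (v x + g y)) ^ 2) := mul_nonneg (by positivity) h2
      linarith
  have hj : ∀ x, N (v x) ^ 2 ≤ ∑ y, Q x y * N ((1 / 2 : ℝ) • (v x + g y)) ^ 2 := by
    intro x
    have h1 : v x = ∑ y, Q x y • ((1 / 2 : ℝ) • (v x + g y)) := by
      simp only [smul_add, Finset.sum_add_distrib]
      have h2 : ∑ y, Q x y • (1 / 2 : ℝ) • v x = (1 / 2 : ℝ) • v x := by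
        rw [← Finset.sum_smul, hQ.row, one_smul]
      have h3 : ∑ y, Q x y • (1 / 2 : ℝ) • g y = (1 / 2 : ℝ) • v x := by
        rw [hvdef, Finset.smul_sum]
        exact Finset.sum_congr rfl fun y _ => smul_comm _ _ _
      rw [h2, h3, ← add_smul]
      norm_num
    have h4 := h.jensen (Q x) (hQ.nonneg x) (hQ.row x) (fun y => (1 / 2 : ℝ) • (v x + g y))
    rw [← h1] at h4
    exact h4
  calc ∑ x, ∑ y, w x * Q x y * ‖g y - v x‖ ≤
        ∑ x, ∑ y, w x * Q x y * (ε / 2 + 2 / γ * ((N (v x) ^ 2 + N (g y) ^ 2) / 2 -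
          N ((1 / 2 : ℝ) • (v x + g y)) ^ 2)) :=
        Finset.sum_le_sum fun x _ => Finset.sum_le_sum fun y _ =>
          mul_le_mul_of_nonneg_left (hb x y) (mul_nonneg (hw.1 x).le (hQ.nonneg x y))
    _ = ∑ x, w x * (ε / 2 + 1 / γ * N (v x) ^ 2 + 1 / γ * (∑ y, Q x y * N (g y) ^ 2) -
          2 / γ * ∑ y, Q x y * N ((1 / 2 : ℝ) • (v x + g y)) ^ 2) := by
        refine Finset.sum_congr rfl fun x _ => ?_
        have h1 : ∀ y, w x * Q x y * (ε / 2 + 2 / γ * ((N (v x) ^ 2 + N (g y) ^ 2) / 2 -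
            N ((1 / 2 : ℝ) • (v x + g y)) ^ 2)) =
            w x * (ε / 2 + 1 / γ * N (v x) ^ 2) * Q x y + w x * (1 / γ) * (Q x y * N (g y) ^ 2) -
            w x * (2 / γ) * (Q x y * N ((1 / 2 : ℝ) • (v x + g y)) ^ 2) := by
          intro y
          ring
        simp only [h1, Finset.sum_add_distrib, Finset.sum_sub_distrib, ← Finset.mul_sum, hQ.row]
        ring
    _ ≤ ∑ x, w x * (ε / 2 + 1 / γ * N (v x) ^ 2 + 1 / γ * (∑ y, Q x y * N (g y) ^ 2) -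
          2 / γ * N (v x) ^ 2) := by
        refine Finset.sum_le_sum fun x _ => mul_le_mul_of_nonneg_left ?_ (hw.1 x).le
        have h1 := mul_le_mul_of_nonneg_left (hj x) (by positivity : 0 ≤ 2 / γ)
        linarith
    _ = ∑ x, (ε / 2 * w x + 1 / γ * (w x * (∑ y, Q x y * N (g y) ^ 2)) -
          1 / γ * (w x * N (v x) ^ 2)) := by
        refine Finset.sum_congr rfl fun x _ => ?_
        ring
    _ = ε / 2 + 1 / γ * (∑ x, w x * N (g x) ^ 2 - ∑ x, w x * N (v x) ^ 2) := by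
        rw [Finset.sum_sub_distrib, Finset.sum_add_distrib, ← Finset.mul_sum, ← Finset.mul_sum,
          ← Finset.mul_sum, hw.2, hQ.sum (fun y => N (g y) ^ 2)]
        ring

theorem exists_scale {X : Type u} [NormedAddCommGroup X] [NormedSpace ℝ X] {N : X → ℝ} {c C : ℝ}
    (h : UCN X N c C) (ε : ℝ) (hε : 0 < ε) :
    ∃ K : ℕ, 0 < K ∧ ∀ (n : ℕ) (w : Fin n → ℝ) (P : Matrix (Fin n) (Fin n) ℝ), Wt w → Mk w P →
      ∀ f : Fin n → X, (∀ i, ‖f i‖ ≤ 1) → ∃ j < K,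
        ∑ x, ∑ y, w x * (P ^ 2 ^ j) x y * ‖act (P ^ (2 ^ K - 2 ^ (j + 1))) f y -
          act (P ^ 2 ^ j) (act (P ^ (2 ^ K - 2 ^ (j + 1))) f) x‖ ≤ ε := by
  obtain ⟨γ, hγ, hgap⟩ := mid_gap h (ε / 2) (half_pos hε)
  obtain ⟨K, hK⟩ := exists_nat_ge (C ^ 2 / (γ * (ε / 2)) + 1)
  have hC := h.C_pos
  have hγε : 0 < γ * (ε / 2) := by positivity
  have hK0 : (0 : ℝ) < K := lt_of_lt_of_le (by positivity) hK
  refine ⟨K, by exact_mod_cast hK0, ?_⟩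
  intro n w P hw hP f hf
  by_contra hcon
  push Not at hcon
  set a : ℕ → ℝ := fun j => ∑ x, w x * N (act (P ^ (2 ^ K - 2 ^ j)) f x) ^ 2 with ha
  have hstep : ∀ j ∈ Finset.range K, γ * (ε / 2) < a (j + 1) - a j := by
    intro j hj
    rw [Finset.mem_range] at hj
    have h1 := h99_step h hγ hε hgap hw (hP.pow (2 ^ j)) (act (P ^ (2 ^ K - 2 ^ (j + 1))) f)
      (fun i => (hP.pow _).norm_sup hf i)
    have h2 := hcon j hj
    have h3 : act (P ^ 2 ^ j) (act (P ^ (2 ^ K - 2 ^ (j + 1))) f) =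
        act (P ^ (2 ^ K - 2 ^ j)) f := by
      rw [← act_mul, ← pow_add]
      congr 2
      have h4 : 2 ^ (j + 1) ≤ 2 ^ K := Nat.pow_le_pow_right (by norm_num) hj
      have h5 : 2 ^ (j + 1) = 2 * 2 ^ j := pow_succ' 2 j
      omega
    have h4 : ∑ x, w x * N (act (P ^ 2 ^ j) (act (P ^ (2 ^ K - 2 ^ (j + 1))) f) x) ^ 2 = a j := by
      rw [h3]
    rw [h4] at h1
    have h5 : ε / 2 < 1 / γ * (a (j + 1) - a j) := by
      have h6 := h2.trans_le h1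
      have h7 : (1 : ℝ) / γ * (∑ x, w x * N (act (P ^ (2 ^ K - 2 ^ (j + 1))) f x) ^ 2 - a j) =
        1 / γ * (a (j + 1) - a j) := rfl
      linarith
    have h6 := mul_lt_mul_of_pos_left h5 hγ
    rw [← mul_assoc, mul_one_div_cancel hγ.ne', one_mul] at h6
    exact h6
  have hle : ∀ j, 0 ≤ a j ∧ a j ≤ C ^ 2 := by
    intro j
    refine ⟨Finset.sum_nonneg fun x _ => mul_nonneg (hw.1 x).le (sq_nonneg _), ?_⟩
    have h1 : ∀ x, w x * N (act (P ^ (2 ^ K - 2 ^ j)) f x) ^ 2 ≤ w x * C ^ 2 := by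
      intro x
      refine mul_le_mul_of_nonneg_left ?_ (hw.1 x).le
      refine pow_le_pow_left₀ (h.nonneg _) ?_ 2
      refine (h.upper _).trans ?_
      have h2 := (hP.pow (2 ^ K - 2 ^ j)).norm_sup hf x
      nlinarith
    refine (Finset.sum_le_sum fun x _ => h1 x).trans ?_
    rw [← Finset.sum_mul, hw.2, one_mul]
  have hne : (Finset.range K).Nonempty := by
    rw [Finset.nonempty_range_iff]
    intro h0
    rw [h0] at hK0
    simp at hK0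
  have hsum := Finset.sum_lt_sum_of_nonempty hne hstep
  rw [Finset.sum_const, Finset.card_range, Finset.sum_range_sub, nsmul_eq_mul] at hsum
  have h1 : C ^ 2 / (γ * (ε / 2)) ≤ K := by linarith
  rw [div_le_iff₀ hγε] at h1
  linarith [(hle 0).1, (hle K).2]

end Pool.Agent.Helper82.MK
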