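import Pool.Agent.Helper82.MK.Mat

/-!
# Block MK-UCUR: uniformly curved spaces satisfy the Markov criterion

PROOF. Given `η` let `ε` be the number of `UCurved` for `η / 2`; take `N = 1`, `δ = 2 ε`. For `M`, `P` put `T = (1 / 2) • ((1 - M) * P ^ 1)`. Then
`|T i j| ≤ (P i j + (M * P) i j) / 2`; the rows of `P`, `M * P` sum to `1`, and `∑_i w_i P i j = w_j` (`Mk.col`),
`∑_i w_i (M * P) i j = ∑_l (∑_i w_i M i l) P l j = ∑_l w_l P l j = w_j`. The `L_2` bound of `T` is `ε`. For `‖f i‖ ≤ 1`: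
`∑ w ‖(1 - M) P f‖ = 2 ∑ w ‖T f‖ ≤ 2 (∑ w ‖T f‖²)^(1/2)` (Cauchy-Schwarz or Jensen, `∑ w = 1`)
`≤ 2 (η / 2) (∑ w ‖f‖²)^(1/2) ≤ η`.
-/

universe u

namespace Pool.Agent.Helper82.MK

open Finset

theorem UCurved.mcurved {X : Type u} [NormedAddCommGroup X] [NormedSpace ℝ X] (h : UCurved X) :
    MCurved X := by
  intro η hη
  obtain ⟨ε, hε, h⟩ := h (η / 2) (half_pos hη)
  refine ⟨1, one_pos, 2 * ε, by positivity, ?_⟩
  intro n w M P hw hM hP hg f hf
  set S : Matrix (Fin n) (Fin n) ℝ := (1 - M) * P ^ 1 with hS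
  have hSe : ∀ i j, S i j = P i j - (M * P) i j := by
    intro i j
    rw [hS, pow_one, sub_mul, one_mul, Matrix.sub_apply]
  have habs : ∀ i j, |S i j| ≤ P i j + (M * P) i j := by
    intro i j
    have h1 := hP.nonneg i j
    have h2 := hM.mul_nonneg hP i j
    rw [hSe, abs_le]
    constructor <;> linarith
  have hTe : ∀ i j, |((1 / 2 : ℝ) • S) i j| = 1 / 2 * |S i j| := by
    intro i j
    rw [Matrix.smul_apply, smul_eq_mul, abs_mul, abs_of_pos (by norm_num : (0 : ℝ) < 1 / 2)]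
  have key := h n w ((1 / 2 : ℝ) • S) hw.1
    (by
      intro i
      calc ∑ j, |((1 / 2 : ℝ) • S) i j| ≤ ∑ j, 1 / 2 * (P i j + (M * P) i j) := by
            refine Finset.sum_le_sum fun j _ => ?_
            rw [hTe]
            exact mul_le_mul_of_nonneg_left (habs i j) (by norm_num)
        _ = 1 := by
            rw [← Finset.mul_sum, Finset.sum_add_distrib, hP.row, hM.mul_row hP]
            norm_num)
    (by
      intro j
      have h1 : ∑ i, w i * (M * P) i j = w j := by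
        have h2 := hM.sum (fun l => P l j)
        rw [hP.col j] at h2
        rw [← h2]
        refine Finset.sum_congr rfl fun i _ => ?_
        rw [Matrix.mul_apply]
      calc ∑ i, w i * |((1 / 2 : ℝ) • S) i j| ≤
            ∑ i, (1 / 2 * (w i * P i j) + 1 / 2 * (w i * (M * P) i j)) := by
            refine Finset.sum_le_sum fun i _ => ?_
            rw [hTe]
            have h3 := mul_le_mul_of_nonneg_left (habs i j) (hw.1 i).le
            linarith
        _ = w j := by
            rw [Finset.sum_add_distrib, ← Finset.mul_sum, ← Finset.mul_sum, hP.col, h1]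
            ring)
    (by
      intro g
      have h1 := hg g
      have h2 : ∑ i, w i * (act ((1 / 2 : ℝ) • S) g i) ^ 2 =
          1 / 4 * ∑ i, w i * (act S g i) ^ 2 := by
        rw [Finset.mul_sum]
        refine Finset.sum_congr rfl fun i _ => ?_
        rw [act_smul, Pi.smul_apply, smul_eq_mul]
        ring
      rw [h2]
      linarith)
    f
  have hnf : ∑ i, w i * ‖f i‖ ^ 2 ≤ 1 := by
    calc ∑ i, w i * ‖f i‖ ^ 2 ≤ ∑ i, w i := by
          refine Finset.sum_le_sum fun i _ => ?_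
          have h1 : ‖f i‖ ^ 2 ≤ 1 := pow_le_one₀ (norm_nonneg _) (hf i)
          exact mul_le_of_le_one_right (hw.1 i).le h1
      _ = 1 := hw.2
  have h1 : ∑ i, w i * ‖act ((1 / 2 : ℝ) • S) f i‖ ^ 2 ≤ (η / 2) ^ 2 := by
    refine key.trans ?_
    exact mul_le_of_le_one_right (sq_nonneg _) hnf
  have h2 := (convexOn_pow 2 : ConvexOn ℝ (Set.Ici (0 : ℝ)) fun x => x ^ 2).map_sum_le
    (t := Finset.univ) (w := w) (p := fun i => ‖act ((1 / 2 : ℝ) • S) f i‖)
    (fun i _ => (hw.1 i).le) hw.2 (fun i _ => norm_nonneg _)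
  simp only [smul_eq_mul] at h2
  have h3 : ∑ i, w i * ‖act ((1 / 2 : ℝ) • S) f i‖ ≤ η / 2 :=
    (pow_le_pow_iff_left₀ (Finset.sum_nonneg fun i _ => mul_nonneg (hw.1 i).le (norm_nonneg _))
      (half_pos hη).le two_ne_zero).1 (h2.trans h1)
  have h4 : ∑ i, w i * ‖act ((1 / 2 : ℝ) • S) f i‖ = 1 / 2 * ∑ i, w i * ‖act S f i‖ := by
    rw [Finset.mul_sum]
    refine Finset.sum_congr rfl fun i _ => ?_
    rw [act_smul, Pi.smul_apply, norm_smul, Real.norm_eq_abs,
      abs_of_pos (by norm_num : (0 : ℝ) < 1 / 2)]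
    ring
  rw [h4] at h3
  linarith

end Pool.Agent.Helper82.MK
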